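import Mathlib

/-!
# CB3-FARX, part 1: weighted bounds of products of matrices
-/

set_option autoImplicit false

namespace Pool.Agent.Y590.CB

open Finset

variable {n : Type*} [Fintype n] [DecidableEq n] {ι : Type*}

/-- bound of the entries by a rank one matrix -/
def Bd (φ ψ : n → ℝ) (X : Matrix n n ℂ) : Prop := ∀ i j, ‖X i j‖ ≤ φ i * ψ j

omit [DecidableEq n] in
theorem Bd.mul {φ ψ φ' ψ' : n → ℝ} {X Y : Matrix n n ℂ} (hX : Bd φ ψ X) (hY : Bd φ' ψ' Y) :
    Bd (fun i => (∑ j, ψ j * φ' j) * φ i) ψ' (X * Y) := by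
  intro i k
  rw [Matrix.mul_apply]
  refine (norm_sum_le _ _).trans ?_
  have : ∀ j ∈ univ, ‖X i j * Y j k‖ ≤ (ψ j * φ' j) * (φ i * ψ' k) := by
    intro j _
    rw [norm_mul]
    calc ‖X i j‖ * ‖Y j k‖ ≤ (φ i * ψ j) * (φ' j * ψ' k) :=
        mul_le_mul (hX i j) (hY j k) (norm_nonneg _) ((norm_nonneg _).trans (hX i j))
      _ = _ := by ring
  refine (sum_le_sum this).trans (le_of_eq ?_)
  rw [← sum_mul]
  ring

omit [Fintype n] [DecidableEq n] in
theorem Bd.add {φ φ' ψ : n → ℝ} {X Y : Matrix n n ℂ} (hX : Bd φ ψ X) (hY : Bd φ' ψ Y) :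
    Bd (fun i => φ i + φ' i) ψ (X + Y) := by
  intro i j
  rw [Matrix.add_apply, add_mul]
  exact (norm_add_le _ _).trans (add_le_add (hX i j) (hY i j))

omit [Fintype n] [DecidableEq n] in
theorem Bd.mono {φ φ' ψ ψ' : n → ℝ} {X : Matrix n n ℂ} (hX : Bd φ ψ X)
    (h : ∀ i j, φ i * ψ j ≤ φ' i * ψ' j) : Bd φ' ψ' X := fun i j => (hX i j).trans (h i j)

omit [DecidableEq n] in
theorem Bd.trace {φ ψ : n → ℝ} {X : Matrix n n ℂ} (hX : Bd φ ψ X) :
    ‖X.trace‖ ≤ ∑ i, ψ i * φ i := by
  unfold Matrix.trace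
  refine (norm_sum_le _ _).trans (sum_le_sum fun i _ => ?_)
  rw [Matrix.diag_apply, mul_comm]
  exact hX i i

theorem Bd.diag_left {φ ψ δ : n → ℝ} {X : Matrix n n ℂ} {d : n → ℂ} (hX : Bd φ ψ X)
    (hd : ∀ i, ‖d i‖ ≤ δ i) : Bd (fun i => δ i * φ i) ψ (Matrix.diagonal d * X) := by
  intro i j
  rw [Matrix.diagonal_mul, norm_mul, mul_assoc]
  exact mul_le_mul (hd i) (hX i j) (norm_nonneg _) ((norm_nonneg _).trans (hd i))

theorem Bd.diag_right {φ ψ δ : n → ℝ} {X : Matrix n n ℂ} {d : n → ℂ} (hX : Bd φ ψ X)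
    (hd : ∀ i, ‖d i‖ ≤ δ i) : Bd φ (fun j => ψ j * δ j) (X * Matrix.diagonal d) := by
  intro i j
  rw [Matrix.mul_diagonal, norm_mul, ← mul_assoc]
  exact mul_le_mul (hX i j) (hd j) (norm_nonneg _) ((norm_nonneg _).trans (hX i j))

/-- products -/
theorem lst_bd {φ ψ : n → ℝ} {R : ι → Matrix n n ℂ} {l : List ι} (hR : ∀ s ∈ l, Bd φ ψ (R s))
    {ξ : n → ℝ} {X : Matrix n n ℂ} (hX : Bd ξ ψ X) :
    Bd (fun i => (∑ j, ψ j * φ j) ^ l.length * ξ i) ψ (X * (l.map R).prod) := by
  induction l generalizing ξ X with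
  | nil => simpa using hX
  | cons a l ih =>
    have h1 := hX.mul (hR a (by simp))
    have h2 := ih (fun s hs => hR s (by simp [hs])) h1
    rw [List.map_cons, List.prod_cons, ← mul_assoc]
    refine h2.mono fun i j => le_of_eq ?_
    rw [List.length_cons]
    ring

/-- the trace of a product -/
theorem tr_bd {φ ψ : n → ℝ} {R : ι → Matrix n n ℂ} {l : List ι} (hl : l ≠ [])
    (hR : ∀ s ∈ l, Bd φ ψ (R s)) : ‖((l.map R).prod).trace‖ ≤ (∑ j, ψ j * φ j) ^ l.length := by
  rcases l with _ | ⟨a, l⟩
  · exact absurd rfl hl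
  · have h1 := lst_bd (l := l) (fun s hs => hR s (by simp [hs])) (hR a (by simp))
    rw [List.map_cons, List.prod_cons]
    refine h1.trace.trans (le_of_eq ?_)
    rw [List.length_cons, pow_succ', Finset.sum_mul]
    refine sum_congr rfl fun i _ => ?_
    ring

/-- the trace of a product, with diagonal matrices at both ends -/
theorem tr_bd' {φ ψ : n → ℝ} {R : ι → Matrix n n ℂ} {l : List ι} (hl : l ≠ [])
    (hR : ∀ s ∈ l, Bd φ ψ (R s)) {d e : n → ℂ} (hd : ∀ i, ‖d i‖ ≤ 1) (he : ∀ i, ‖e i‖ ≤ 1) :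
    ‖(Matrix.diagonal d * (l.map R).prod * Matrix.diagonal e).trace‖ ≤
      (∑ j, ψ j * φ j) ^ l.length := by
  rcases l with _ | ⟨a, l⟩
  · exact absurd rfl hl
  · have h1 := lst_bd (l := l) (fun s hs => hR s (by simp [hs])) (hR a (by simp))
    rw [List.map_cons, List.prod_cons]
    have h2 := (h1.diag_left hd).diag_right he
    refine h2.trace.trans (le_of_eq ?_)
    rw [List.length_cons, pow_succ', Finset.sum_mul]
    refine sum_congr rfl fun i _ => ?_
    ring

/-- differences of products -/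
theorem diff_bd {φ φ' ψ : n → ℝ} {R R' : ι → Matrix n n ℂ} {l : List ι}
    (hR : ∀ s ∈ l, Bd φ ψ (R s)) (hR' : ∀ s ∈ l, Bd φ ψ (R' s))
    (hE : ∀ s ∈ l, Bd φ' ψ (R s - R' s)) {ξ : n → ℝ} {X : Matrix n n ℂ} (hX : Bd ξ ψ X) :
    Bd (fun i => (l.length * (∑ j, ψ j * φ' j) * (∑ j, ψ j * φ j) ^ (l.length - 1)) * ξ i) ψ
      (X * ((l.map R).prod - (l.map R').prod)) := by
  induction l generalizing ξ X with
  | nil =>
    intro i j
    simp
  | cons a l ih =>
    have hR1 : ∀ s ∈ l, Bd φ ψ (R s) := fun s hs => hR s (by simp [hs])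
    have h1 := lst_bd hR1 (hX.mul (hE a (by simp)))
    have h2 := ih hR1 (fun s hs => hR' s (by simp [hs])) (fun s hs => hE s (by simp [hs]))
      (hX.mul (hR' a (by simp)))
    have e : X * (((a :: l).map R).prod - ((a :: l).map R').prod) =
        X * (R a - R' a) * (l.map R).prod + X * R' a * ((l.map R).prod - (l.map R').prod) := by
      rw [List.map_cons, List.prod_cons, List.map_cons, List.prod_cons]
      noncomm_ring
    rw [e]
    refine (h1.add h2).mono fun i j => le_of_eq ?_
    rw [List.length_cons]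
    rcases Nat.eq_zero_or_pos l.length with h0 | h0
    · rw [h0]
      simp
    · obtain ⟨k, hk⟩ : ∃ k, l.length = k + 1 := ⟨l.length - 1, by omega⟩
      rw [hk]
      simp only [Nat.add_sub_cancel]
      push_cast
      ring

theorem tr_diff {φ φ' ψ : n → ℝ} {R R' : ι → Matrix n n ℂ} {l : List ι} (hl : l ≠ [])
    (hR : ∀ s ∈ l, Bd φ ψ (R s)) (hR' : ∀ s ∈ l, Bd φ ψ (R' s))
    (hE : ∀ s ∈ l, Bd φ' ψ (R s - R' s)) :
    ‖((l.map R).prod).trace - ((l.map R').prod).trace‖ ≤
      l.length * (∑ j, ψ j * φ' j) * (∑ j, ψ j * φ j) ^ (l.length - 1) := by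
  rcases l with _ | ⟨a, l⟩
  · exact absurd rfl hl
  · have hR1 : ∀ s ∈ l, Bd φ ψ (R s) := fun s hs => hR s (by simp [hs])
    have h1 := lst_bd hR1 (hE a (by simp))
    have h2 := diff_bd hR1 (fun s hs => hR' s (by simp [hs])) (fun s hs => hE s (by simp [hs]))
      (hR' a (by simp))
    have e : ((a :: l).map R).prod - ((a :: l).map R').prod =
        (R a - R' a) * (l.map R).prod + R' a * ((l.map R).prod - (l.map R').prod) := by
      rw [List.map_cons, List.prod_cons, List.map_cons, List.prod_cons]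
      noncomm_ring
    rw [← Matrix.trace_sub, e]
    refine (h1.add h2).trace.trans (le_of_eq ?_)
    have e3 : ∀ c c' : ℝ, ∑ i, ψ i * (c * φ' i + c' * φ i) =
        c * (∑ i, ψ i * φ' i) + c' * ∑ i, ψ i * φ i := by
      intro c c'
      rw [mul_sum, mul_sum, ← sum_add_distrib]
      refine sum_congr rfl fun i _ => ?_
      ring
    rw [e3, List.length_cons]
    rcases Nat.eq_zero_or_pos l.length with h0 | h0
    · rw [h0]
      simp
    · obtain ⟨k, hk⟩ : ∃ k, l.length = k + 1 := ⟨l.length - 1, by omega⟩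
      rw [hk]
      simp only [Nat.add_sub_cancel]
      push_cast
      ring

/-! ### block triangular products -/

section Blk

variable {H L : Matrix n n ℂ}

theorem blk0 (hHL : H + L = 1) (hLH : L * H = 0) (R : ι → Matrix n n ℂ)
    (hR : ∀ s, L * R s * H = 0) (l : List ι) : L * (l.map R).prod * H = 0 := by
  induction l with
  | nil => simpa using hLH
  | cons a l ih =>
    rw [List.map_cons, List.prod_cons]
    calc L * (R a * (l.map R).prod) * H = L * R a * (H + L) * (l.map R).prod * H := by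
          rw [hHL]
          simp only [mul_assoc, mul_one]
      _ = (L * R a * H) * (l.map R).prod * H + L * R a * (L * (l.map R).prod * H) := by
          noncomm_ring
      _ = 0 := by rw [hR, ih]; simp

theorem blkH (hHL : H + L = 1) (hLH : L * H = 0) (hHH : H * H = H)
    (R : ι → Matrix n n ℂ) (hR : ∀ s, L * R s * H = 0) (l : List ι) :
    H * (l.map R).prod * H = H * (l.map fun s => H * R s * H).prod * H := by
  induction l with
  | nil => rfl
  | cons a l ih =>
    have h0 := blk0 hHL hLH R hR l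
    rw [List.map_cons, List.prod_cons, List.map_cons, List.prod_cons]
    calc H * (R a * (l.map R).prod) * H = H * R a * (H + L) * (l.map R).prod * H := by
          rw [hHL]
          simp only [mul_assoc, mul_one]
      _ = H * R a * H * (l.map R).prod * H + H * R a * (L * (l.map R).prod * H) := by noncomm_ring
      _ = H * R a * H * (l.map R).prod * H := by rw [h0]; simp
      _ = (H * H) * R a * (H * H) * (l.map R).prod * H := by rw [hHH]
      _ = H * (H * R a * H) * (H * (l.map R).prod * H) := by noncomm_ring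
      _ = H * (H * R a * H) * (H * (l.map fun s => H * R s * H).prod * H) := by rw [ih]
      _ = H * (H * R a * (H * H) * (l.map fun s => H * R s * H).prod) * H := by noncomm_ring
      _ = _ := by rw [hHH]

theorem blkL (hHL : H + L = 1) (hLL : L * L = L)
    (R : ι → Matrix n n ℂ) (hR : ∀ s, L * R s * H = 0) (l : List ι) :
    L * (l.map R).prod * L = L * (l.map fun s => L * R s * L).prod * L := by
  induction l with
  | nil => rfl
  | cons a l ih =>
    rw [List.map_cons, List.prod_cons, List.map_cons, List.prod_cons]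
    calc L * (R a * (l.map R).prod) * L = L * R a * (H + L) * (l.map R).prod * L := by
          rw [hHL]
          simp only [mul_assoc, mul_one]
      _ = (L * R a * H) * (l.map R).prod * L + L * R a * L * (l.map R).prod * L := by noncomm_ring
      _ = L * R a * L * (l.map R).prod * L := by rw [hR]; simp
      _ = (L * L) * R a * (L * L) * (l.map R).prod * L := by rw [hLL]
      _ = L * (L * R a * L) * (L * (l.map R).prod * L) := by noncomm_ring
      _ = L * (L * R a * L) * (L * (l.map fun s => L * R s * L).prod * L) := by rw [ih]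
      _ = L * (L * R a * (L * L) * (l.map fun s => L * R s * L).prod) * L := by noncomm_ring
      _ = _ := by rw [hLL]

theorem lstH (hHH : H * H = H) (X : ι → Matrix n n ℂ) (l : List ι) :
    H * (l.map fun s => H * X s * H).prod = H * (l.map fun s => X s * H).prod := by
  induction l with
  | nil => rfl
  | cons a l ih =>
    rw [List.map_cons, List.prod_cons, List.map_cons, List.prod_cons]
    calc H * (H * X a * H * (l.map fun s => H * X s * H).prod) =
          (H * H) * X a * (H * (l.map fun s => H * X s * H).prod) := by noncomm_ring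
      _ = H * X a * (H * (l.map fun s => X s * H).prod) := by rw [hHH, ih]
      _ = _ := by noncomm_ring

/-- the trace of a product of block triangular matrices -/
theorem tr_blk (hHL : H + L = 1) (hLH : L * H = 0) (hHH : H * H = H)
    (hLL : L * L = L) (R : ι → Matrix n n ℂ) (hR : ∀ s, L * R s * H = 0) (l : List ι) :
    ((l.map R).prod).trace = (H * (l.map fun s => H * R s * H).prod * H).trace +
      (L * (l.map fun s => L * R s * L).prod * L).trace := by
  rw [← blkH hHL hLH hHH R hR, ← blkL hHL hLL R hR]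
  rw [Matrix.trace_mul_comm (H * (l.map R).prod) H, Matrix.trace_mul_comm (L * (l.map R).prod) L,
    ← mul_assoc, ← mul_assoc, hHH, hLL, ← Matrix.trace_add, ← add_mul, hHL, one_mul]

end Blk

end Pool.Agent.Y590.CB
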