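import Pool.Agent.Y590.CB.Prd
import Pool.Agent.Y590.CB.Mat
import Pool.Agent.W688.HT.Fin
import Pool.Agent.W503.HT.Upb
import Pool.Agent.W398.HT.STPE

/-!
# CB3-FARX, part 2: bounds of the entries
-/

set_option autoImplicit false

namespace Pool.Agent.Y590.CB

open Finset Filter Topology
open Pool.Agent.W711.HT Pool.Agent.Y472
open Pool.Agent.W346.HT (Sd_pos Sd_mul)
open Pool.Agent.W398.HT (Rp_diff)
open GapVol (lob)
open scoped Real

/-- `max (bb δ 0) 0` -/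
noncomputable def bp (δ : ℝ) : ℝ := max (bb δ 0) 0

theorem bp_cont : Continuous bp := by
  have h : bp = fun δ => max ((2 * lob (π * δ) - lob (((0 : ℝ) / 2 + π / 2) + π * δ) +
      lob (((0 : ℝ) / 2 + π / 2) - π * δ)) / π) 0 := by
    funext δ
    rw [bp, Pool.Agent.W688.HT.bb_eq]
  rw [h]
  have h1 : Continuous fun δ : ℝ => lob (π * δ) := GapVol.lob_cont.comp (by fun_prop)
  have h2 : Continuous fun δ : ℝ => lob (((0 : ℝ) / 2 + π / 2) + π * δ) :=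
    GapVol.lob_cont.comp (by fun_prop)
  have h3 : Continuous fun δ : ℝ => lob (((0 : ℝ) / 2 + π / 2) - π * δ) :=
    GapVol.lob_cont.comp (by fun_prop)
  exact ((((h1.const_mul 2).sub h2).add h3).div_const π).max continuous_const

theorem bp_uc (ε : ℝ) (hε : 0 < ε) : ∀ᶠ N : ℕ in atTop, ∀ x < N,
    bp (((N - 1 - x : ℕ) : ℝ) / N) ≤ bp (1 - (x : ℝ) / N) + ε := by
  have huc := isCompact_Icc.uniformContinuousOn_of_continuous
    (bp_cont.continuousOn (s := Set.Icc (0 : ℝ) 1))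
  rw [Metric.uniformContinuousOn_iff] at huc
  obtain ⟨δ, hδ, hu⟩ := huc ε hε
  have h1 : ∀ᶠ N : ℕ in atTop, (1 : ℝ) / (N : ℝ) < δ :=
    (tendsto_const_div_atTop_nhds_zero_nat 1).eventually (gt_mem_nhds hδ)
  filter_upwards [h1, eventually_gt_atTop 0] with N hN hN0
  intro x hx
  have hNR : (0 : ℝ) < N := by exact_mod_cast hN0
  have e : ((N - 1 - x : ℕ) : ℝ) / N = 1 - (x : ℝ) / N - 1 / N := by
    have : N = (N - 1 - x) + 1 + x := by omega
    have h2 : (N : ℝ) = ((N - 1 - x : ℕ) : ℝ) + 1 + x := by exact_mod_cast this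
    field_simp
    linarith
  have h3 : ((N - 1 - x : ℕ) : ℝ) / N ∈ Set.Icc (0 : ℝ) 1 := by
    refine ⟨by positivity, ?_⟩
    rw [div_le_one hNR]
    exact_mod_cast (show N - 1 - x ≤ N by omega)
  have h4 : 1 - (x : ℝ) / N ∈ Set.Icc (0 : ℝ) 1 := by
    have h5 : (x : ℝ) / N ≤ 1 := by
      rw [div_le_one hNR]
      exact_mod_cast hx.le
    have h6 : 0 ≤ (x : ℝ) / N := by positivity
    exact ⟨by linarith, by linarith⟩
  have h7 := hu _ h3 _ h4 (by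
    rw [Real.dist_eq, e]
    have : 1 - (x : ℝ) / N - 1 / N - (1 - (x : ℝ) / N) = -(1 / N) := by ring
    rw [this, abs_neg, abs_of_pos (by positivity)]
    exact hN)
  rw [Real.dist_eq] at h7
  have := (abs_lt.1 h7).2
  linarith

/-- bound of the path integral -/
theorem upp_bd (a : ℤ) : ∃ C : ℝ, 0 < C ∧ ∀ᶠ N : ℕ in atTop, ∀ (f : ℂ → ℂ) (B : ℝ), Continuous f →
    (∀ x y : ℝ, |x| ≤ π → |y| ≤ 1 / N → ‖f (x + y * Complex.I)‖ ≤ B) →
    ‖upp (1 / N) fun ψ => Ea a N ψ * f ψ * kr N ψ‖ ≤ C * B := by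
  obtain ⟨C, hC, h⟩ := upb a
  refine ⟨2 * C, by positivity, ?_⟩
  filter_upwards [h 1 one_pos (by linarith [Real.pi_gt_three])] with N hN
  intro f B hf hB
  obtain ⟨h1, h2⟩ := hN f B hf
  have h3 := h1 fun x y _ hx hy => hB x y hx hy
  have h4 := h2 fun x y hx hy => hB x y (hx.trans (by linarith [Real.pi_gt_three])) hy
  have h5 := norm_add_le ((upp (1 / N) fun ψ => Ea a N ψ * f ψ * kr N ψ) -
        ∫ x in (-(1 : ℝ))..1, Ea a N (x + (1 / N : ℝ) * Complex.I) *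
          f (x + (1 / N : ℝ) * Complex.I) * kr N (x + (1 / N : ℝ) * Complex.I))
    (∫ x in (-(1 : ℝ))..1, Ea a N (x + (1 / N : ℝ) * Complex.I) *
          f (x + (1 / N : ℝ) * Complex.I) * kr N (x + (1 / N : ℝ) * Complex.I))
  rw [sub_add_cancel] at h5
  linarith

/-- bound of the entries `cJ` -/
theorem cJ_bd (h4 : ∀ δ x : ℝ, 0 ≤ δ → δ ≤ 1 → |x| ≤ π → bb δ x ≤ max (bb δ 0) 0) (a : ℤ)
    (ε : ℝ) (hε : 0 < ε) : ∃ C : ℝ, 0 < C ∧ ∀ᶠ N : ℕ in atTop, ∀ y x : ℕ, y < N → x < N →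
    ‖cJ N a y x‖ ≤ C * (N : ℝ) ^ 2 * (Sd N y ^ 2 / Sd N x ^ 2) *
      Real.exp (N * (bp ((y : ℝ) / N) + bp (1 - (x : ℝ) / N) + 3 * ε)) := by
  obtain ⟨C, hC, hU⟩ := upp_bd a
  obtain ⟨τ, hτ, hB⟩ := Pool.Agent.W688.HT.b0 ε hε
  refine ⟨C, hC, ?_⟩
  have h1 : ∀ᶠ N : ℕ in atTop, (1 : ℝ) / (N : ℝ) < τ :=
    (tendsto_const_div_atTop_nhds_zero_nat 1).eventually (gt_mem_nhds hτ)
  filter_upwards [hU, hB, h1, bp_uc ε hε, eventually_gt_atTop 0] with N hU hB h1 huc hN0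
  intro y x hy hx
  have hNR : (0 : ℝ) < N := by exact_mod_cast hN0
  have hSx := Sd_pos hx
  have hSy := Sd_pos hy
  have hx' : N - 1 - x < N := by omega
  have hSx' := Sd_pos hx'
  have hmul := Sd_mul hx
  have key : ∀ d < N, ∀ X Y : ℝ, |X| ≤ π → |Y| ≤ 1 / N →
      ‖Rp N d (X + Y * Complex.I)‖ ≤ Sd N d ^ 2 * Real.exp (N * (bp ((d : ℝ) / N) + ε)) := by
    intro d hd X Y hX hY
    refine (hB d hd X Y hX (hY.trans h1.le)).trans ?_
    have hd1 : (d : ℝ) / N ≤ 1 := by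
      rw [div_le_one hNR]
      exact_mod_cast hd.le
    have := h4 ((d : ℝ) / N) X (by positivity) hd1 hX
    unfold bp
    gcongr
  set B : ℝ := (Sd N (N - 1 - x) ^ 2 * Real.exp (N * (bp (((N - 1 - x : ℕ) : ℝ) / N) + ε))) *
    (Sd N y ^ 2 * Real.exp (N * (bp ((y : ℝ) / N) + ε))) with hBdef
  have h2 := hU (fun ψ => Rp N (N - 1 - x) ψ * Rp N y ψ) B
    ((Rp_diff N _).continuous.mul (Rp_diff N _).continuous) (by
      intro X Y hX hY
      rw [norm_mul]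
      exact mul_le_mul (key _ hx' X Y hX hY) (key _ hy X Y hX hY) (norm_nonneg _) (by positivity))
  have h3 : ‖cJ N a y x‖ ≤ C * B := by
    have e : (upp (1 / N) fun ψ => Ea a N ψ * Rp N (N - 1 - x) ψ * Rp N y ψ * kr N ψ) =
        upp (1 / N) fun ψ => Ea a N ψ * (Rp N (N - 1 - x) ψ * Rp N y ψ) * kr N ψ := by
      congr 1
      funext ψ
      ring
    unfold cJ
    rw [e, norm_mul, norm_div, norm_pow, norm_neg, norm_one, one_pow]
    have h5 : ‖(2 * π : ℂ)‖ = 2 * π := by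
      rw [norm_mul, Complex.norm_real, Real.norm_of_nonneg Real.pi_pos.le]
      simp
    rw [h5]
    have h6 : 1 / (2 * π) ≤ 1 := by
      rw [div_le_one (by positivity)]
      linarith [Real.pi_gt_three]
    have h7 : 0 ≤ 1 / (2 * π) := by positivity
    exact (mul_le_of_le_one_left (norm_nonneg _) h6).trans h2
  refine h3.trans ?_
  have e1 : Sd N (N - 1 - x) = N / Sd N x := by
    rw [eq_div_iff hSx.ne', mul_comm]
    exact hmul
  have h8 := huc x hx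
  rw [hBdef, e1]
  calc C * ((((N : ℝ) / Sd N x) ^ 2 * Real.exp (N * (bp (((N - 1 - x : ℕ) : ℝ) / N) + ε))) *
        (Sd N y ^ 2 * Real.exp (N * (bp ((y : ℝ) / N) + ε)))) =
      C * (N : ℝ) ^ 2 * (Sd N y ^ 2 / Sd N x ^ 2) *
        (Real.exp (N * (bp (((N - 1 - x : ℕ) : ℝ) / N) + ε)) *
          Real.exp (N * (bp ((y : ℝ) / N) + ε))) := by
        field_simp
    _ ≤ C * (N : ℝ) ^ 2 * (Sd N y ^ 2 / Sd N x ^ 2) *
      Real.exp (N * (bp ((y : ℝ) / N) + bp (1 - (x : ℝ) / N) + 3 * ε)) := by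
        rw [← Real.exp_add]
        have h9 : (N : ℝ) * (bp (((N - 1 - x : ℕ) : ℝ) / N) + ε) + N * (bp ((y : ℝ) / N) + ε) ≤
            N * (bp ((y : ℝ) / N) + bp (1 - (x : ℝ) / N) + 3 * ε) := by
          rw [← mul_add]
          exact mul_le_mul_of_nonneg_left (by linarith) hNR.le
        have := Real.exp_le_exp.2 h9
        gcongr

/-- bound of the products of `Ph` -/
theorem Ph_bd (h : S_TB0) (ε : ℝ) (hε : 0 < ε) : ∃ τ : ℝ, 0 < τ ∧ ∀ᶠ N : ℕ in atTop,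
    ∀ y x : ℕ, y ≤ x → x < N → ∀ χ : ℂ, |χ.re| ≤ π → |χ.im| ≤ τ →
    ‖∏ t ∈ Ioc y x, Ph N χ t‖ ≤ (Sd N x ^ 2 / Sd N y ^ 2) ^ 2 *
      Real.exp (N * (rh ((x : ℝ) / N) χ.re - rh ((y : ℝ) / N) χ.re + ε)) := by
  obtain ⟨τ, hτ, hN⟩ := h ε hε
  refine ⟨τ, hτ, ?_⟩
  filter_upwards [hN] with N hN
  intro y x hyx hx χ h1 h2
  have hSx := Sd_pos hx
  have hSy := Sd_pos (show y < N by omega)
  have h3 := hN y x hyx hx χ.re χ.im h1 h2
  rw [Complex.re_add_im] at h3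
  simp only [Ph_eq, prod_mul_distrib]
  rw [norm_mul]
  have h4 : ‖∏ t ∈ Ioc y x, ((qc N t : ℝ) : ℂ)‖ = Sd N x ^ 2 / Sd N y ^ 2 := by
    have h5 := Sd_qc N hyx
    have h6 : ∏ t ∈ Ioc y x, ((qc N t : ℝ) : ℂ) = ((∏ t ∈ Ioc y x, qc N t : ℝ) : ℂ) := by
      push_cast
      rfl
    rw [h6, Complex.norm_real, Real.norm_of_nonneg, eq_div_iff (by positivity), ← h5, mul_comm]
    exact prod_nonneg fun t _ => by rw [qc_sq]; positivity
  rw [h4]
  calc Sd N x ^ 2 / Sd N y ^ 2 * ‖∏ t ∈ Ioc y x, pc N χ t‖ ≤ Sd N x ^ 2 / Sd N y ^ 2 *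
        (Sd N x ^ 2 / Sd N y ^ 2 *
          Real.exp (N * (rh ((x : ℝ) / N) χ.re - rh ((y : ℝ) / N) χ.re + ε))) := by
        have : ‖∏ t ∈ Ioc y x, pc N χ t‖ ≤ Sd N x ^ 2 / Sd N y ^ 2 *
          Real.exp (N * (rh ((x : ℝ) / N) χ.re - rh ((y : ℝ) / N) χ.re + ε)) := h3
        gcongr
    _ = _ := by ring

theorem ev_le {K ε : ℝ} (hε : 0 < ε) : ∀ᶠ N : ℕ in atTop, K ≤ Real.exp (N * ε) := by
  have h1 : Tendsto (fun N : ℕ => (N : ℝ) * ε) atTop atTop :=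
    Tendsto.atTop_mul_const hε tendsto_natCast_atTop_atTop
  exact (Real.tendsto_exp_atTop.comp h1).eventually_ge_atTop K

theorem ev_N {ε : ℝ} (hε : 0 < ε) : ∀ᶠ N : ℕ in atTop, (N : ℝ) ≤ Real.exp (N * ε) := by
  have h1 : Tendsto (fun N : ℕ => (N : ℝ) * ε) atTop atTop :=
    Tendsto.atTop_mul_const hε tendsto_natCast_atTop_atTop
  have h2 := (Real.tendsto_exp_div_pow_atTop 1).comp h1
  filter_upwards [h2.eventually_ge_atTop (1 / ε), eventually_gt_atTop 0] with N hN hN0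
  have hN0' : (0 : ℝ) < N := by exact_mod_cast hN0
  simp only [Function.comp, pow_one] at hN
  rw [div_le_div_iff₀ hε (by positivity)] at hN
  have : (N : ℝ) * ε ≤ Real.exp (N * ε) * ε := by linarith
  exact le_of_mul_le_mul_right this hε

/-- `p` -/
noncomputable def wp (N : ℕ) (ε : ℝ) (x : ℕ) : ℝ :=
  Real.exp (N * (bp (1 - (x : ℝ) / N) + 3 * ε)) / Sd N x ^ 2
/-- `q` -/
noncomputable def wq (N : ℕ) (ε : ℝ) (y : ℕ) : ℝ :=
  Sd N y ^ 2 * Real.exp (N * (bp ((y : ℝ) / N) + 3 * ε))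
/-- `q'` -/
noncomputable def wq' (N : ℕ) (ε u : ℝ) (y : ℕ) : ℝ :=
  Real.exp (N * (bp ((y : ℝ) / N) - rh ((y : ℝ) / N) u + 3 * ε)) / Sd N y ^ 2
/-- `p'` -/
noncomputable def wp' (N : ℕ) (ε u : ℝ) (x : ℕ) : ℝ :=
  Sd N x ^ 2 * Real.exp (N * (bp (1 - (x : ℝ) / N) + rh ((x : ℝ) / N) u + 3 * ε))

theorem wp_pos {N x : ℕ} (hx : x < N) (ε : ℝ) : 0 < wp N ε x := by
  have := Sd_pos hx
  unfold wp
  positivity

theorem wq_pos {N x : ℕ} (hx : x < N) (ε : ℝ) : 0 < wq N ε x := by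
  have := Sd_pos hx
  unfold wq
  positivity

theorem wq'_pos {N x : ℕ} (hx : x < N) (ε u : ℝ) : 0 < wq' N ε u x := by
  have := Sd_pos hx
  unfold wq'
  positivity

theorem wp'_pos {N x : ℕ} (hx : x < N) (ε u : ℝ) : 0 < wp' N ε u x := by
  have := Sd_pos hx
  unfold wp'
  positivity

/-- the bounds of the matrices, one twist region -/
theorem ent1 (h : S_TB0)
    (h4 : ∀ δ x : ℝ, 0 ≤ δ → δ ≤ 1 → |x| ≤ π → bb δ x ≤ max (bb δ 0) 0) (a : ℤ)
    (ε : ℝ) (hε : 0 < ε) : ∃ τ : ℝ, 0 < τ ∧ ∀ᶠ N : ℕ in atTop, ∀ χ : ℂ, |χ.re| ≤ π → |χ.im| ≤ τ →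
    Bd (fun x : Fin N => wp N ε x) (fun y : Fin N => wq N ε y) (MA0 N a) ∧
    Bd (fun y : Fin N => wq' N ε χ.re y) (fun x : Fin N => wp' N ε χ.re x) (MB0 N χ a) := by
  obtain ⟨C, hC, hJ⟩ := cJ_bd h4 a ε hε
  obtain ⟨τ, hτ, hP⟩ := Ph_bd h ε hε
  refine ⟨τ, hτ, ?_⟩
  filter_upwards [hJ, hP, ev_N (ε := ε / 2) (half_pos hε), ev_le (K := C) (ε := ε) hε,
    eventually_gt_atTop 0] with N hJ hP hN hK hN0
  intro χ hχ1 hχ2
  have hNR : (0 : ℝ) < N := by exact_mod_cast hN0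
  have hCN : C * (N : ℝ) ^ 2 ≤ Real.exp (N * (2 * ε)) := by
    calc C * (N : ℝ) ^ 2 ≤ Real.exp (N * ε) * Real.exp (N * (ε / 2)) ^ 2 := by gcongr
      _ = Real.exp (N * (2 * ε)) := by
        rw [← Real.exp_nat_mul, ← Real.exp_add]
        congr 1
        push_cast
        ring
  constructor
  · intro x y
    have hSx := Sd_pos x.isLt
    have hSy := Sd_pos y.isLt
    have hp := wp_pos x.isLt ε
    have hq := wq_pos y.isLt ε
    unfold MA0
    split_ifs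
    · refine (hJ y x y.isLt x.isLt).trans ?_
      have h1 : C * (N : ℝ) ^ 2 ≤ Real.exp (N * (3 * ε)) :=
        hCN.trans (Real.exp_le_exp.2 (by nlinarith))
      calc C * (N : ℝ) ^ 2 * (Sd N y ^ 2 / Sd N x ^ 2) *
          Real.exp (N * (bp ((y : ℝ) / N) + bp (1 - (x : ℝ) / N) + 3 * ε)) ≤
          Real.exp (N * (3 * ε)) * (Sd N y ^ 2 / Sd N x ^ 2) *
          Real.exp (N * (bp ((y : ℝ) / N) + bp (1 - (x : ℝ) / N) + 3 * ε)) := by gcongr
        _ = (Sd N y ^ 2 / Sd N x ^ 2) * (Real.exp (N * (3 * ε)) *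
          Real.exp (N * (bp ((y : ℝ) / N) + bp (1 - (x : ℝ) / N) + 3 * ε))) := by ring
        _ = (Sd N y ^ 2 / Sd N x ^ 2) * (Real.exp (N * (bp (1 - (x : ℝ) / N) + 3 * ε)) *
          Real.exp (N * (bp ((y : ℝ) / N) + 3 * ε))) := by
          rw [← Real.exp_add, ← Real.exp_add]
          congr 2
          ring
        _ = wp N ε x * wq N ε y := by
          unfold wp wq
          ring
    · rw [norm_zero]
      positivity
  · intro y x
    have hSx := Sd_pos x.isLt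
    have hSy := Sd_pos y.isLt
    have hp := wp'_pos x.isLt ε χ.re
    have hq := wq'_pos y.isLt ε χ.re
    unfold MB0
    split_ifs with hle
    · rw [norm_mul]
      have h1 := hP y x hle x.isLt χ hχ1 hχ2
      have h2 := hJ y x y.isLt x.isLt
      calc ‖∏ t ∈ Ioc (y : ℕ) x, Ph N χ t‖ * ‖cJ N a y x‖ ≤
          ((Sd N x ^ 2 / Sd N y ^ 2) ^ 2 *
            Real.exp (N * (rh ((x : ℝ) / N) χ.re - rh ((y : ℝ) / N) χ.re + ε))) *
          (C * (N : ℝ) ^ 2 * (Sd N y ^ 2 / Sd N x ^ 2) *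
            Real.exp (N * (bp ((y : ℝ) / N) + bp (1 - (x : ℝ) / N) + 3 * ε))) :=
            mul_le_mul h1 h2 (norm_nonneg _) (by positivity)
        _ ≤ ((Sd N x ^ 2 / Sd N y ^ 2) ^ 2 *
            Real.exp (N * (rh ((x : ℝ) / N) χ.re - rh ((y : ℝ) / N) χ.re + ε))) *
          (Real.exp (N * (2 * ε)) * (Sd N y ^ 2 / Sd N x ^ 2) *
            Real.exp (N * (bp ((y : ℝ) / N) + bp (1 - (x : ℝ) / N) + 3 * ε))) := by gcongr
        _ = (Sd N x ^ 2 / Sd N y ^ 2) *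
            (Real.exp (N * (rh ((x : ℝ) / N) χ.re - rh ((y : ℝ) / N) χ.re + ε)) *
            Real.exp (N * (2 * ε)) *
            Real.exp (N * (bp ((y : ℝ) / N) + bp (1 - (x : ℝ) / N) + 3 * ε))) := by
            field_simp
        _ = (Sd N x ^ 2 / Sd N y ^ 2) *
            (Real.exp (N * (bp ((y : ℝ) / N) - rh ((y : ℝ) / N) χ.re + 3 * ε)) *
            Real.exp (N * (bp (1 - (x : ℝ) / N) + rh ((x : ℝ) / N) χ.re + 3 * ε))) := by
            rw [← Real.exp_add, ← Real.exp_add, ← Real.exp_add]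
            congr 2
            ring
        _ = wq' N ε χ.re y * wp' N ε χ.re x := by
            unfold wq' wp'
            ring
    · rw [norm_zero]
      positivity

/-- the bounds of the matrices -/
theorem ent (h : S_TB0)
    (h4 : ∀ δ x : ℝ, 0 ≤ δ → δ ≤ 1 → |x| ≤ π → bb δ x ≤ max (bb δ 0) 0) (ls : List (ℤ × ℤ))
    (ε : ℝ) (hε : 0 < ε) : ∃ τ : ℝ, 0 < τ ∧ ∀ᶠ N : ℕ in atTop, ∀ χ : ℂ, |χ.re| ≤ π → |χ.im| ≤ τ →
    ∀ s ∈ ls, Bd (fun x : Fin N => wp N ε x) (fun y : Fin N => wq N ε y) (MA0 N s.1) ∧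
    Bd (fun y : Fin N => wq' N ε χ.re y) (fun x : Fin N => wp' N ε χ.re x) (MB0 N χ s.2) := by
  induction ls with
  | nil => exact ⟨1, one_pos, Eventually.of_forall fun N χ _ _ s hs => absurd hs (by simp)⟩
  | cons a l ih =>
    obtain ⟨τ0, hτ0, H0⟩ := ih
    obtain ⟨τ1, hτ1, H1⟩ := ent1 h h4 a.1 ε hε
    obtain ⟨τ2, hτ2, H2⟩ := ent1 h h4 a.2 ε hε
    refine ⟨min τ0 (min τ1 τ2), by positivity, ?_⟩
    filter_upwards [H0, H1, H2] with N H0 H1 H2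
    intro χ hχ1 hχ2 s hs
    rcases List.mem_cons.1 hs with rfl | hs
    · exact ⟨(H1 χ hχ1 (hχ2.trans ((min_le_right _ _).trans (min_le_left _ _)))).1,
        (H2 χ hχ1 (hχ2.trans ((min_le_right _ _).trans (min_le_right _ _)))).2⟩
    · exact H0 χ hχ1 (hχ2.trans (min_le_left _ _)) s hs

/-- the weights of the indices `x` -/
theorem wx {N x : ℕ} (hx : x < N) {ε u : ℝ} (hu : |u| ≤ π)
    (h1 : ∀ δ x : ℝ, 0 ≤ δ → δ ≤ 1 → |x| ≤ π → rh (1 - δ) x = -rh δ x) :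
    wp' N ε u x * wp N ε x =
      Real.exp (N * (2 * (max (bb (1 - (x : ℝ) / N) 0) 0 - rh (1 - (x : ℝ) / N) u / 2) + 6 * ε)) := by
  have hSx := Sd_pos hx
  have hNR : (0 : ℝ) < N := by exact_mod_cast (show 0 < N by omega)
  have hx1 : (x : ℝ) / N ≤ 1 := by
    rw [div_le_one hNR]
    exact_mod_cast hx.le
  have h2 := h1 ((x : ℝ) / N) u (by positivity) hx1 hu
  have e : rh ((x : ℝ) / N) u = -rh (1 - (x : ℝ) / N) u := by rw [h2, neg_neg]
  unfold wp wp'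
  rw [e]
  calc Sd N x ^ 2 * Real.exp (N * (bp (1 - (x : ℝ) / N) + -rh (1 - (x : ℝ) / N) u + 3 * ε)) *
        (Real.exp (N * (bp (1 - (x : ℝ) / N) + 3 * ε)) / Sd N x ^ 2) =
      Real.exp (N * (bp (1 - (x : ℝ) / N) + -rh (1 - (x : ℝ) / N) u + 3 * ε)) *
        Real.exp (N * (bp (1 - (x : ℝ) / N) + 3 * ε)) := by
        field_simp
    _ = _ := by
        rw [← Real.exp_add]
        congr 1
        unfold bp
        ring

/-- the weights of the indices `y` -/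
theorem wy {N y : ℕ} (hy : y < N) {ε u : ℝ} :
    wq N ε y * wq' N ε u y =
      Real.exp (N * (2 * (max (bb ((y : ℝ) / N) 0) 0 - rh ((y : ℝ) / N) u / 2) + 6 * ε)) := by
  have hSy := Sd_pos hy
  unfold wq wq'
  calc Sd N y ^ 2 * Real.exp (N * (bp ((y : ℝ) / N) + 3 * ε)) *
        (Real.exp (N * (bp ((y : ℝ) / N) - rh ((y : ℝ) / N) u + 3 * ε)) / Sd N y ^ 2) =
      Real.exp (N * (bp ((y : ℝ) / N) + 3 * ε)) *
        Real.exp (N * (bp ((y : ℝ) / N) - rh ((y : ℝ) / N) u + 3 * ε)) := by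
        field_simp
    _ = _ := by
        rw [← Real.exp_add]
        congr 1
        unfold bp
        ring

end Pool.Agent.Y590.CB
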