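import Pool.Agent.Y590.CB.Prd
import Pool.Agent.Y721.VC.Exc

/-!
# CB3-KF: the main part of the trace as an iterated integral

`kf : Pool.Agent.Y472.S_KF`.
-/

set_option autoImplicit false

namespace Pool.Agent.Y590.CB

open Finset MeasureTheory
open Pool.Agent.W711.HT Pool.Agent.Y472
open Pool.Agent.Y481 (itI wts cw)
open Pool.Agent.Y721.VC (Pr Pr_congr Pr_update trace_lin Pr_list upp_fsum integrable_path)
open Pool.Agent.W398.HT (Rp_diff)
open scoped Real

/-! ### the diagonal weights -/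

/-- `T_d / S_d^2` for `d ≤ n₀`, and zero otherwise -/
noncomputable def Dw (N : ℕ) (χ : ℂ) (d : ℕ) : ℂ :=
  if d ≤ (N - 1) / 2 then Tg N d χ / (Sd N d : ℂ) ^ 2 else 0

/-- the path integral of `R_x R_y` -/
noncomputable def Uc (N : ℕ) (a : ℤ) (x y : ℕ) : ℂ :=
  upp (1 / N) fun ψ => Ea a N ψ * (Rp N x ψ * Rp N y ψ) * kr N ψ

/-- the matrix of a twist region -/
noncomputable def Mm (N : ℕ) (χ : ℂ) (a : ℤ) : Matrix (Fin N) (Fin N) ℂ :=
  fun x y => Uc N a x y * Dw N χ y

/-- the rank one matrix of a vertex -/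
noncomputable def Am (N : ℕ) (χ ψ : ℂ) : Matrix (Fin N) (Fin N) ℂ :=
  Matrix.vecMulVec (fun x => Rp N x ψ) (fun y => Rp N y ψ * Dw N χ y)

theorem kh_eq {N : ℕ} (hN : 1 ≤ N) (ψ ψ' χ : ℂ) :
    kh N ψ ψ' χ = ∑ t : Fin N, Rp N t ψ * Dw N χ t * Rp N t ψ' := by
  rw [← Finset.sum_range (fun t => Rp N t ψ * Dw N χ t * Rp N t ψ'), kh]
  have h : range ((N - 1) / 2 + 1) ⊆ range N := by
    intro x hx
    rw [mem_range] at hx ⊢
    omega
  refine (Finset.sum_congr rfl ?_).trans (Finset.sum_subset h ?_)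
  · intro d hd
    rw [mem_range] at hd
    rw [Dw, if_pos (by omega)]
    ring
  · intro d _ hd
    rw [mem_range] at hd
    rw [Dw, if_neg (by omega)]
    ring

theorem Am_mul {N : ℕ} (hN : 1 ≤ N) (χ ψ₀ ψ ψ' : ℂ) :
    Matrix.vecMulVec (fun x : Fin N => Rp N x ψ₀) (fun y : Fin N => Rp N y ψ * Dw N χ y) *
      Am N χ ψ' = kh N ψ ψ' χ • Matrix.vecMulVec (fun x : Fin N => Rp N x ψ₀)
        (fun y : Fin N => Rp N y ψ' * Dw N χ y) := by
  ext x y
  rw [Matrix.mul_apply, Matrix.smul_apply, Matrix.vecMulVec_apply, kh_eq hN,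
    smul_eq_mul, Finset.sum_mul]
  refine Finset.sum_congr rfl fun t _ => ?_
  rw [Am, Matrix.vecMulVec_apply, Matrix.vecMulVec_apply]
  ring

theorem Pr_Am {N : ℕ} (hN : 1 ≤ N) (χ : ℂ) (ψ : ℕ → ℂ) (m : ℕ) :
    Pr (fun i => Am N χ (ψ i)) (m + 1) = (∏ j ∈ range m, kh N (ψ j) (ψ (j + 1)) χ) •
      Matrix.vecMulVec (fun x : Fin N => Rp N x (ψ 0))
        (fun y : Fin N => Rp N y (ψ m) * Dw N χ y) := by
  induction m with
  | zero =>
    simp only [Pr, one_mul, Finset.range_zero, Finset.prod_empty, one_smul, Am]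
  | succ m ih =>
    rw [Pr, ih, Matrix.smul_mul, Am_mul hN, smul_smul, Finset.prod_range_succ]

theorem trace_Am {N : ℕ} (hN : 1 ≤ N) (χ : ℂ) (ψ : ℕ → ℂ) (n : ℕ) (hn : 1 ≤ n) :
    (Pr (fun i => Am N χ (ψ i)) n).trace = Wk n N χ ψ := by
  obtain ⟨m, rfl⟩ : ∃ m, n = m + 1 := ⟨n - 1, by omega⟩
  rw [Pr_Am hN, Matrix.trace_smul, Wk, Finset.prod_range_succ, Nat.mod_self, smul_eq_mul]
  congr 1
  · refine Finset.prod_congr rfl fun j hj => ?_
    rw [Finset.mem_range] at hj
    rw [Nat.mod_eq_of_lt (by omega)]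
  · rw [Matrix.trace, kh_eq hN]
    refine Finset.sum_congr rfl fun x _ => ?_
    rw [Matrix.diag_apply, Matrix.vecMulVec_apply]
    ring

/-- the path integral of a combination of products `R_d R_e` -/
theorem upp_lin' {N : ℕ} (hN : 1 ≤ N) (a : ℤ) {ι : Type*} (s : Finset ι) (c : ι → ℂ)
    (d e : ι → ℕ) :
    upp (1 / N) (fun ψ => Ea a N ψ * (∑ i ∈ s, c i * (Rp N (d i) ψ * Rp N (e i) ψ)) * kr N ψ) =
      ∑ i ∈ s, c i * Uc N a (d i) (e i) := by
  have e1 : (fun ψ => Ea a N ψ * (∑ i ∈ s, c i * (Rp N (d i) ψ * Rp N (e i) ψ)) * kr N ψ) =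
      fun ψ => ∑ i ∈ s, c i * (Ea a N ψ * (Rp N (d i) ψ * Rp N (e i) ψ) * kr N ψ) := by
    funext ψ
    rw [Finset.mul_sum, Finset.sum_mul]
    refine Finset.sum_congr rfl fun i _ => ?_
    ring
  rw [e1]
  have hc : ∀ i, Continuous fun ψ => Rp N (d i) ψ * Rp N (e i) ψ :=
    fun i => (Rp_diff N _).continuous.mul (Rp_diff N _).continuous
  exact upp_fsum (1 / N) s c (fun i ψ => Ea a N ψ * (Rp N (d i) ψ * Rp N (e i) ψ) * kr N ψ)
    (fun i _ => (integrable_path hN a (hc i)).1)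
    (fun i _ => (integrable_path hN a (hc i)).2.1)
    (fun i _ => (integrable_path hN a (hc i)).2.2)

/-- the factors of the product after integrating the variables number `< j` -/
noncomputable def Fb (a : ℕ → ℤ) (N : ℕ) (χ : ℂ) (j : ℕ) (ψ : ℕ → ℂ) (i : ℕ) :
    Matrix (Fin N) (Fin N) ℂ := if i < j then Mm N χ (a i) else Am N χ (ψ i)

theorem itI_Fb (a : ℕ → ℤ) (N n : ℕ) (χ : ℂ) (hN : 1 ≤ N) (hn : 1 ≤ n) (j : ℕ) (hj : j ≤ n)
    (ψ : ℕ → ℂ) :
    itI a N j (Wk n N χ) ψ = (Pr (Fb a N χ j ψ) n).trace := by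
  induction j generalizing ψ with
  | zero =>
    simp only [itI]
    rw [← trace_Am hN χ ψ n hn]
    congr 1
  | succ j ih =>
    simp only [itI]
    have hup : ∀ w : ℂ, Fb a N χ j (Function.update ψ j w) =
        Function.update (Fb a N χ (j + 1) ψ) j (Am N χ w) := by
      intro w
      funext i
      rcases lt_trichotomy i j with h | h | h
      · rw [Function.update_of_ne (by omega)]
        simp only [Fb]
        rw [if_pos h, if_pos (by omega)]
      · subst h
        rw [Function.update_self]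
        simp only [Fb]
        rw [if_neg (by omega), Function.update_self]
      · rw [Function.update_of_ne (by omega)]
        simp only [Fb]
        rw [if_neg (by omega), if_neg (by omega), Function.update_of_ne (by omega)]
    obtain ⟨P, S, h⟩ := Pr_update (Fb a N χ (j + 1) ψ) j n (by omega)
    obtain ⟨Q, hQ0⟩ := trace_lin P S
    have hQ : ∀ M : Matrix (Fin N) (Fin N) ℂ,
        (Pr (Function.update (Fb a N χ (j + 1) ψ) j M) n).trace =
          ∑ p : Fin N × Fin N, Q p.1 p.2 * M p.1 p.2 := fun M => by rw [h M, hQ0 M]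
    have e1 : ∀ w, itI a N j (Wk n N χ) (Function.update ψ j w) =
        ∑ q : Fin N × Fin N,
          (Q q.1 q.2 * Dw N χ q.2) * (Rp N (q.1 : ℕ) w * Rp N (q.2 : ℕ) w) := by
      intro w
      rw [ih (by omega), hup, hQ]
      refine Finset.sum_congr rfl fun p _ => ?_
      rw [Am, Matrix.vecMulVec_apply]
      ring
    simp only [e1]
    rw [upp_lin' hN (a j) Finset.univ (fun q : Fin N × Fin N => Q q.1 q.2 * Dw N χ q.2)
      (fun q => (q.1 : ℕ)) (fun q => (q.2 : ℕ))]
    have e2 : Fb a N χ (j + 1) ψ = Function.update (Fb a N χ (j + 1) ψ) j (Mm N χ (a j)) := by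
      funext i
      by_cases h : i = j
      · subst h
        rw [Function.update_self]
        simp only [Fb]
        rw [if_pos (by omega)]
      · rw [Function.update_of_ne h]
    rw [e2, hQ]
    refine Finset.sum_congr rfl fun p _ => ?_
    rw [Mm]
    ring

theorem wts_length (ls : List (ℤ × ℤ)) : (wts ls).length = 2 * ls.length := by
  unfold wts
  induction ls with
  | nil => rfl
  | cons q ls ih =>
    simp only [List.map_cons, List.flatten_cons, List.length_append, List.length_cons,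
      List.length_nil]
    rw [ih]
    omega

theorem wts_prod {R : Type*} [Monoid R] (ls : List (ℤ × ℤ)) (g : ℤ → R) :
    ((wts ls).map g).prod = (ls.map fun q => g q.1 * g q.2).prod := by
  unfold wts
  induction ls with
  | nil => rfl
  | cons q ls ih =>
    simp only [List.map_cons, List.flatten_cons, List.map_append, List.prod_append, List.prod_cons,
      List.map_nil, List.prod_nil, mul_one]
    rw [ih]

/-- the iterated integral is a trace -/
theorem XN_eq {N : ℕ} (hN : 1 ≤ N) (ls : List (ℤ × ℤ)) (hl : ls ≠ []) (χ : ℂ) :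
    XN ls N χ = ((ls.map fun q => Mm N χ q.1 * Mm N χ q.2).prod).trace := by
  have hn : 1 ≤ 2 * ls.length := by
    rcases ls with _ | ⟨x, l⟩
    · exact absurd rfl hl
    · simp only [List.length_cons]
      omega
  rw [XN, itI_Fb (cw ls) N (2 * ls.length) χ hN hn _ le_rfl 0, ← wts_prod ls (Mm N χ), ← Pr_list,
    wts_length]
  congr 1
  apply Pr_congr
  intro j hj
  simp only [Fb]
  rw [if_pos hj]
  rfl

/-! ### lists of matrices -/

section Lst

variable {n : Type*} [Fintype n] [DecidableEq n] {ι : Type*}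

theorem lst1 (Q : Matrix n n ℂ) (R : ι → Matrix n n ℂ) (l : List ι) (hl : l ≠ []) :
    ∃ X, (l.map fun s => Q * R s).prod = Q * X ∧ (l.map fun s => R s * Q).prod = X * Q := by
  induction l with
  | nil => exact absurd rfl hl
  | cons a l ih =>
    by_cases h : l = []
    · subst h
      exact ⟨R a, by simp, by simp⟩
    · obtain ⟨X, h1, h2⟩ := ih h
      refine ⟨R a * Q * X, ?_, ?_⟩
      · rw [List.map_cons, List.prod_cons, h1]
        simp only [mul_assoc]
      · rw [List.map_cons, List.prod_cons, h2]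
        simp only [mul_assoc]

theorem lst2 (G H : Matrix n n ℂ) (W : ι → Matrix n n ℂ) (l : List ι) (hl : l ≠ [])
    (hW : ∀ s, W s * (H * G) = W s) :
    (l.map fun s => G * W s * H).prod = G * (l.map W).prod * H ∧
      (l.map W).prod * (H * G) = (l.map W).prod := by
  induction l with
  | nil => exact absurd rfl hl
  | cons a l ih =>
    by_cases h : l = []
    · subst h
      simp only [List.map_cons, List.map_nil, List.prod_cons, List.prod_nil, mul_one]
      exact ⟨trivial, hW a⟩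
    · obtain ⟨h1, h2⟩ := ih h
      refine ⟨?_, ?_⟩
      · rw [List.map_cons, List.prod_cons, h1, List.map_cons, List.prod_cons]
        calc G * W a * H * (G * (l.map W).prod * H) =
            G * (W a * (H * G)) * (l.map W).prod * H := by simp only [mul_assoc]
          _ = G * (W a * (l.map W).prod) * H := by rw [hW a]; simp only [mul_assoc]
      · rw [List.map_cons, List.prod_cons, mul_assoc, h2]

theorem lst3 (G H : Matrix n n ℂ) (W : ι → Matrix n n ℂ) (l : List ι) (hl : l ≠ [])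
    (hW : ∀ s, W s * (H * G) = W s) :
    ((l.map fun s => G * W s * H).prod).trace = ((l.map W).prod).trace := by
  obtain ⟨h1, h2⟩ := lst2 G H W l hl hW
  rw [h1, mul_assoc, Matrix.trace_mul_comm, mul_assoc, h2]

theorem lst4 (Q : Matrix n n ℂ) (hQ : Q * Q = Q) (R : ι → Matrix n n ℂ) (l : List ι)
    (hl : l ≠ []) :
    ((l.map fun s => Q * R s).prod).trace = ((l.map fun s => Q * R s * Q).prod).trace := by
  obtain ⟨X, h1, h2⟩ := lst1 Q R l hl
  have h3 := lst3 Q 1 (fun s => R s * Q) l hl (fun s => by rw [one_mul, mul_assoc, hQ])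
  simp only [mul_one, ← mul_assoc] at h3
  rw [h3, h1, h2, Matrix.trace_mul_comm]

theorem lst_smul (c : ℂ) (W : ι → Matrix n n ℂ) (l : List ι) :
    (l.map fun s => c • W s).prod = c ^ l.length • (l.map W).prod := by
  induction l with
  | nil => simp
  | cons a l ih =>
    rw [List.map_cons, List.prod_cons, ih, List.map_cons, List.prod_cons, List.length_cons,
      Matrix.smul_mul, Matrix.mul_smul, smul_smul, pow_succ']

theorem lst_sub (e : n ≃ n) (W : ι → Matrix n n ℂ) (l : List ι) :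
    (l.map fun s => (W s).submatrix e e).prod = ((l.map W).prod).submatrix e e := by
  induction l with
  | nil => simp
  | cons a l ih =>
    rw [List.map_cons, List.prod_cons, ih, List.map_cons, List.prod_cons,
      Matrix.submatrix_mul_equiv]

omit [DecidableEq n] in
theorem trace_sub (e : n ≃ n) (M : Matrix n n ℂ) : (M.submatrix e e).trace = M.trace := by
  unfold Matrix.trace
  exact e.sum_comp (fun i => M.diag i)

end Lst

/-! ### the reduction -/

/-- projection to the indices `≤ n₀` -/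
noncomputable def Qp (N : ℕ) : Matrix (Fin N) (Fin N) ℂ :=
  Matrix.diagonal fun i : Fin N => if (i : ℕ) ≤ (N - 1) / 2 then (1 : ℂ) else 0

theorem Qp_sq (N : ℕ) : Qp N * Qp N = Qp N := by
  unfold Qp
  rw [Matrix.diagonal_mul_diagonal]
  congr 1
  funext i
  split_ifs <;> simp

/-- signs -/
noncomputable def Zg (N : ℕ) : Matrix (Fin N) (Fin N) ℂ :=
  Matrix.diagonal fun i : Fin N => (-1 : ℂ) ^ (i : ℕ)

theorem Zg_sq (N : ℕ) : Zg N * Zg N = 1 := by
  unfold Zg
  rw [Matrix.diagonal_mul_diagonal, ← Matrix.diagonal_one]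
  congr 1
  funext i
  rw [← mul_pow]
  norm_num

/-- the diagonal matrix of the weights -/
noncomputable def Dm (N : ℕ) (χ : ℂ) : Matrix (Fin N) (Fin N) ℂ :=
  Matrix.diagonal fun i : Fin N => Dw N χ i

/-- the path integrals -/
noncomputable def Um (N : ℕ) (a : ℤ) : Matrix (Fin N) (Fin N) ℂ := fun x y => Uc N a x y

theorem Um_apply (N : ℕ) (a : ℤ) (x y : Fin N) : Um N a x y = Uc N a x y := rfl

theorem Mm_eq (N : ℕ) (χ : ℂ) (a : ℤ) : Mm N χ a = Um N a * Dm N χ := by
  ext x y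
  rw [Dm, Matrix.mul_diagonal]
  rfl

/-- `MA0` with the rows reversed -/
noncomputable def Ar (N : ℕ) (a : ℤ) : Matrix (Fin N) (Fin N) ℂ := (MA0 N a).submatrix Fin.revPerm id

/-- `MB0` with the columns reversed -/
noncomputable def Br (N : ℕ) (χ : ℂ) (b : ℤ) : Matrix (Fin N) (Fin N) ℂ :=
  (MB0 N χ b).submatrix id Fin.revPerm

theorem rev_val {N : ℕ} (x : Fin N) : ((Fin.revPerm x : Fin N) : ℕ) = N - 1 - (x : ℕ) := by
  rw [Fin.revPerm_apply, Fin.val_rev]
  omega

theorem Px_sub (N : ℕ) :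
    (Matrix.diagonal (fun i : Fin N => if N - 1 - (N - 1) / 2 ≤ (i : ℕ) then (1 : ℂ) else 0)).submatrix
      Fin.revPerm Fin.revPerm = Qp N := by
  rw [Matrix.submatrix_diagonal_equiv, Qp]
  congr 1
  funext i
  simp only [Function.comp, rev_val]
  have := i.isLt
  congr 1
  apply propext
  omega

theorem cJ_rev (N : ℕ) (a : ℤ) {y d : ℕ} (hd : d < N) :
    cJ N a y (N - 1 - d) = (-1) ^ (d + y) / (2 * π) * Uc N a d y := by
  have e : N - 1 - (N - 1 - d) = d := by omega
  unfold cJ Uc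
  rw [e]
  congr 1
  congr 1
  funext ψ
  ring

theorem Uc_symm (N : ℕ) (a : ℤ) (x y : ℕ) : Uc N a x y = Uc N a y x := by
  unfold Uc
  congr 1
  funext ψ
  ring

theorem QAQ {N : ℕ} (a : ℤ) :
    Qp N * Ar N a * Qp N = (1 / (2 * π) : ℂ) • (Qp N * (Zg N * Um N a * Zg N) * Qp N) := by
  ext x y
  simp only [Qp, Zg, Matrix.diagonal_mul, Matrix.mul_diagonal, Matrix.smul_apply, smul_eq_mul]
  by_cases hx : (x : ℕ) ≤ (N - 1) / 2
  · by_cases hy : (y : ℕ) ≤ (N - 1) / 2
    · rw [if_pos hx, if_pos hy]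
      have hxN := x.isLt
      have hle : y ≤ Fin.revPerm x := by
        rw [Fin.le_def, rev_val]
        omega
      have : Ar N a x y = cJ N a y (N - 1 - (x : ℕ)) := by
        rw [Ar, Matrix.submatrix_apply, MA0, id, if_pos hle, rev_val]
      rw [this, cJ_rev N a hxN, Um_apply, pow_add]
      ring
    · rw [if_neg hy]
      ring
  · rw [if_neg hx]
    ring

theorem QBQ {N : ℕ} (hN : 2 ≤ N) (χ : ℂ) (b : ℤ) :
    Qp N * Br N χ b * Qp N =
      ((N : ℂ) ^ 2 / (2 * π) : ℂ) • (Zg N * (Dm N χ * Um N b * Dm N χ) * Zg N) := by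
  ext y x
  simp only [Qp, Zg, Dm, Matrix.diagonal_mul, Matrix.mul_diagonal, Matrix.smul_apply, smul_eq_mul]
  by_cases hx : (x : ℕ) ≤ (N - 1) / 2
  · by_cases hy : (y : ℕ) ≤ (N - 1) / 2
    · rw [if_pos hx, if_pos hy]
      have hxN := x.isLt
      have hle : y ≤ Fin.revPerm x := by
        rw [Fin.le_def, rev_val]
        omega
      have : Br N χ b y x = (∏ t ∈ Ioc (y : ℕ) (N - 1 - (x : ℕ)), Ph N χ t) *
          cJ N b y (N - 1 - (x : ℕ)) := by
        rw [Br, Matrix.submatrix_apply, MB0, id, if_pos hle, rev_val]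
      rw [this, cJ_rev N b hxN, prod_Ph hN χ hy hx, Um_apply, pow_add, Dw, Dw, if_pos hx, if_pos hy,
        Uc_symm]
      ring
    · rw [if_neg hy, show Dw N χ y = 0 by rw [Dw, if_neg hy]]
      ring
  · rw [if_neg hx, show Dw N χ x = 0 by rw [Dw, if_neg hx]]
    ring

theorem Qp_Zg (N : ℕ) : Qp N * Zg N = Zg N * Qp N := by
  unfold Qp Zg
  rw [Matrix.diagonal_mul_diagonal, Matrix.diagonal_mul_diagonal]
  congr 1
  funext i
  ring

theorem Qp_Dm (N : ℕ) (χ : ℂ) : Qp N * Dm N χ = Dm N χ := by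
  unfold Qp Dm
  rw [Matrix.diagonal_mul_diagonal]
  congr 1
  funext i
  rw [Dw]
  split_ifs <;> simp

theorem Dm_Qp (N : ℕ) (χ : ℂ) : Dm N χ * Qp N = Dm N χ := by
  unfold Qp Dm
  rw [Matrix.diagonal_mul_diagonal]
  congr 1
  funext i
  rw [Dw]
  split_ifs <;> simp

/-- KF -/
theorem kf : S_KF := by
  intro N ls χ hN hl
  rw [XN_eq (by omega) ls hl χ, Tm, ← trace_sub Fin.revPerm, ← lst_sub]
  have e1 : ∀ q : ℤ × ℤ,
      (Matrix.diagonal (fun i : Fin N => if N - 1 - (N - 1) / 2 ≤ (i : ℕ) then (1 : ℂ) else 0) *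
      MA0 N q.1 * Matrix.diagonal (fun i : Fin N => if (i : ℕ) ≤ (N - 1) / 2 then (1 : ℂ) else 0) *
      MB0 N χ q.2).submatrix Fin.revPerm Fin.revPerm =
      Qp N * (Ar N q.1 * Qp N * Br N χ q.2) := by
    intro q
    rw [Ar, Br, ← Px_sub N, mul_assoc, mul_assoc, ← Matrix.submatrix_mul_equiv _ _ _ Fin.revPerm _]
    congr 1
    rw [Px_sub N, ← mul_assoc, ← Matrix.submatrix_mul_equiv _ _ _ (Equiv.refl _) _]
    congr 1
  simp only [e1]
  rw [lst4 (Qp N) (Qp_sq N) (fun q : ℤ × ℤ => Ar N q.1 * Qp N * Br N χ q.2) ls hl]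
  have e2 : ∀ q : ℤ × ℤ, Qp N * (Ar N q.1 * Qp N * Br N χ q.2) * Qp N =
      ((N : ℂ) / (2 * π)) ^ 2 • ((Qp N * Zg N) * (Mm N χ q.1 * Mm N χ q.2) * Zg N) := by
    intro q
    have h1 : Qp N * (Ar N q.1 * Qp N * Br N χ q.2) * Qp N =
        (Qp N * Ar N q.1 * Qp N) * (Qp N * Br N χ q.2 * Qp N) := by
      calc Qp N * (Ar N q.1 * Qp N * Br N χ q.2) * Qp N =
          Qp N * Ar N q.1 * Qp N * Br N χ q.2 * Qp N := by simp only [mul_assoc]
        _ = Qp N * Ar N q.1 * (Qp N * Qp N) * Br N χ q.2 * Qp N := by rw [Qp_sq]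
        _ = _ := by simp only [mul_assoc]
    rw [h1, QAQ, QBQ hN, Matrix.smul_mul, Matrix.mul_smul, smul_smul, Mm_eq, Mm_eq]
    congr 1
    · ring
    · calc Qp N * (Zg N * Um N q.1 * Zg N) * Qp N * (Zg N * (Dm N χ * Um N q.2 * Dm N χ) * Zg N) =
          Qp N * Zg N * Um N q.1 * (Zg N * (Qp N * Zg N) * Dm N χ) * Um N q.2 * Dm N χ * Zg N := by
            simp only [mul_assoc]
        _ = Qp N * Zg N * Um N q.1 * ((Zg N * Zg N) * (Qp N * Dm N χ)) * Um N q.2 * Dm N χ *
            Zg N := by rw [Qp_Zg]; simp only [mul_assoc]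
        _ = Qp N * Zg N * Um N q.1 * Dm N χ * Um N q.2 * Dm N χ * Zg N := by
            rw [Zg_sq, Qp_Dm, one_mul]
        _ = _ := by simp only [mul_assoc]
  simp only [e2]
  rw [lst_smul (((N : ℂ) / (2 * π)) ^ 2)
    (fun q : ℤ × ℤ => (Qp N * Zg N) * (Mm N χ q.1 * Mm N χ q.2) * Zg N) ls, Matrix.trace_smul,
    ← pow_mul, smul_eq_mul]
  congr 1
  refine lst3 (Qp N * Zg N) (Zg N) (fun q : ℤ × ℤ => Mm N χ q.1 * Mm N χ q.2) ls hl ?_
  intro q
  have h2 : Zg N * (Qp N * Zg N) = Qp N := by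
    rw [Qp_Zg, ← mul_assoc, Zg_sq, one_mul]
  rw [h2, Mm_eq N χ q.2]
  simp only [mul_assoc, Dm_Qp]

end Pool.Agent.Y590.CB
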