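import Pool.Agent.Y590.CB.Ent

/-!
# CB3-FARX: bounds of the traces

`farx : Pool.Agent.Y472.S_FARX`.
-/

set_option autoImplicit false

namespace Pool.Agent.Y590.CB

open Finset Filter Topology
open Pool.Agent.W711.HT Pool.Agent.Y472
open scoped Real

theorem c1_pos : 0 < c1 := by
  unfold c1
  have := Real.pi_pos
  positivity

/-- the pointwise bounds of the weights -/
theorem wts_bd {ρs : ℝ} (R1 : ∀ δ x : ℝ, 0 ≤ δ → δ ≤ 1 → |x| ≤ π → rh (1 - δ) x = -rh δ x)
    (R2 : ∀ δ x : ℝ, 0 ≤ δ → δ ≤ 1 → |x| ≤ π →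
      max (bb δ 0) 0 - rh δ x / 2 ≤ bet - c1 / 2 * min |x| ρs ^ 2)
    (R3 : ∀ δ x : ℝ, 1 / 2 ≤ δ → δ ≤ 1 → |x| ≤ π → max (bb δ 0) 0 - rh δ x / 2 ≤ bet / 2)
    {N x : ℕ} (hx : x < N) {ε u : ℝ} (hu : |u| ≤ π) :
    wp' N ε u x * wp N ε x ≤ Real.exp (N * (2 * bet - c1 * min |u| ρs ^ 2 + 6 * ε)) ∧
    wq N ε x * wq' N ε u x ≤ Real.exp (N * (2 * bet - c1 * min |u| ρs ^ 2 + 6 * ε)) ∧
    (2 * x < N → wp' N ε u x * wp N ε x ≤ Real.exp (N * (bet + 6 * ε))) ∧
    (N ≤ 2 * x → wq N ε x * wq' N ε u x ≤ Real.exp (N * (bet + 6 * ε))) := by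
  have hNR : (0 : ℝ) < N := by exact_mod_cast (show 0 < N by omega)
  have h0 : 0 ≤ (x : ℝ) / N := by positivity
  have h1 : (x : ℝ) / N ≤ 1 := by
    rw [div_le_one hNR]
    exact_mod_cast hx.le
  rw [wx hx hu R1, wy hx]
  refine ⟨Real.exp_le_exp.2 ?_, Real.exp_le_exp.2 ?_, fun h => Real.exp_le_exp.2 ?_,
    fun h => Real.exp_le_exp.2 ?_⟩ <;> refine mul_le_mul_of_nonneg_left ?_ hNR.le
  · have := R2 (1 - (x : ℝ) / N) u (by linarith) (by linarith) hu
    linarith
  · have := R2 ((x : ℝ) / N) u h0 h1 hu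
    linarith
  · have h2 : (x : ℝ) / N ≤ 1 / 2 := by
      rw [div_le_div_iff₀ hNR two_pos]
      have : x * 2 ≤ 1 * N := by omega
      exact_mod_cast this
    have := R3 (1 - (x : ℝ) / N) u (by linarith) (by linarith) hu
    linarith
  · have h2 : 1 / 2 ≤ (x : ℝ) / N := by
      rw [div_le_div_iff₀ two_pos hNR]
      have : 1 * N ≤ x * 2 := by omega
      exact_mod_cast this
    have := R3 ((x : ℝ) / N) u h2 h1 hu
    linarith

theorem sum_le_exp {N : ℕ} {ε A : ℝ} (hN : (N : ℝ) ≤ Real.exp (N * ε)) {f : Fin N → ℝ}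
    (hf : ∀ x, f x ≤ Real.exp (N * (A + 6 * ε))) : ∑ x, f x ≤ Real.exp (N * (A + 7 * ε)) := by
  calc ∑ x, f x ≤ ∑ _x : Fin N, Real.exp (N * (A + 6 * ε)) := sum_le_sum fun x _ => hf x
    _ = N * Real.exp (N * (A + 6 * ε)) := by
      rw [sum_const, card_univ, Fintype.card_fin, nsmul_eq_mul]
    _ ≤ Real.exp (N * ε) * Real.exp (N * (A + 6 * ε)) := by gcongr
    _ = _ := by
      rw [← Real.exp_add]
      congr 1
      ring

theorem mask_le {c : Prop} [Decidable c] {a B : ℝ} (hB : 0 ≤ B) (h : c → a ≤ B) :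
    (if c then (1 : ℝ) else 0) * a ≤ B := by
  split_ifs with hc
  · rw [one_mul]
    exact h hc
  · rw [zero_mul]
    exact hB

theorem mask_le' {c : Prop} [Decidable c] {a B : ℝ} (hB : 0 ≤ B) (h : ¬c → a ≤ B) :
    (if c then (0 : ℝ) else 1) * a ≤ B := by
  split_ifs with hc
  · rw [zero_mul]
    exact hB
  · rw [one_mul]
    exact h hc

theorem norm_mask {c : Prop} [Decidable c] :
    ‖(if c then (1 : ℂ) else 0)‖ ≤ (if c then (1 : ℝ) else 0) := by
  split_ifs <;> simp

theorem norm_mask' {c : Prop} [Decidable c] :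
    ‖(if c then (0 : ℂ) else 1)‖ ≤ (if c then (0 : ℝ) else 1) := by
  split_ifs <;> simp

theorem norm_mask1 {c : Prop} [Decidable c] : ‖(if c then (1 : ℂ) else 0)‖ ≤ 1 := by
  split_ifs <;> simp

theorem norm_mask1' {c : Prop} [Decidable c] : ‖(if c then (0 : ℂ) else 1)‖ ≤ 1 := by
  split_ifs <;> simp

theorem diag_compl {n : Type*} [Fintype n] [DecidableEq n] (P : n → Prop) [DecidablePred P] :
    Matrix.diagonal (fun i => if P i then (1 : ℂ) else 0) +
      Matrix.diagonal (fun i => if P i then (0 : ℂ) else 1) = 1 := by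
  rw [Matrix.diagonal_add, ← Matrix.diagonal_one]
  congr 1
  funext i
  split_ifs <;> simp

theorem MB0_congr {N : ℕ} {χ χ' : ℂ} (h : Complex.cos χ = Complex.cos χ') (b : ℤ) :
    MB0 N χ b = MB0 N χ' b := by
  funext i j
  unfold MB0 Ph
  rw [h]

/-- FARX, with `ρs` independent of `ls` -/
theorem farx2 : S_TB0 → S_RHO → ∃ ρs : ℝ, 0 < ρs ∧ ρs ≤ 1 ∧ ∀ ls : List (ℤ × ℤ), ls ≠ [] →
  ∃ τ : ℝ, 0 < τ ∧
  (∀ᶠ N : ℕ in atTop, ∀ χ : ℂ, |χ.re| ≤ π → |χ.im| ≤ τ →
    ‖Tf N ls χ - Tm N ls χ‖ ≤ Real.exp (N * ((4 * ls.length - 1 / 2) * bet))) ∧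
  (∀ ε : ℝ, 0 < ε → ∃ τ' : ℝ, 0 < τ' ∧ ∀ᶠ N : ℕ in atTop, ∀ χ : ℂ, |χ.re| ≤ π → |χ.im| ≤ τ' →
    ‖Tf N ls χ‖ ≤ Real.exp (N * (4 * ls.length * bet - 2 * ls.length * c1 * min |χ.re| ρs ^ 2 + ε))) ∧
  (∀ᶠ N : ℕ in atTop, ∀ p < N,
    (2 * p ≤ N → ‖Thi N ls p‖ ≤ Real.exp (N * ((4 * ls.length - 1 / 2) * bet))) ∧
    (N ≤ 2 * p → ‖Tf N ls (2 * π * p / N) - Thi N ls p‖ ≤
      Real.exp (N * ((4 * ls.length - 1 / 2) * bet)))) := by
  intro hT hR
  obtain ⟨ρs, hρ0, hρ1, R1, R2, R3, R4, -, -⟩ := hR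
  refine ⟨ρs, hρ0, hρ1, ?_⟩
  intro ls hl
  have hπ := Real.pi_pos
  have hπ3 := Real.pi_gt_three
  have hc1 := c1_pos
  have hbet : 0 < bet := by
    have h1 := R2 0 ρs le_rfl zero_le_one (by rw [abs_of_pos hρ0]; linarith)
    have h2 : rh 0 ρs = 0 := by
      unfold rh
      exact intervalIntegral.integral_same
    rw [h2, abs_of_pos hρ0, min_self] at h1
    have h3 := le_max_right (bb 0 0) 0
    have h4 : 0 < c1 / 2 * ρs ^ 2 := by positivity
    linarith
  set k := ls.length with hk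
  have hk1 : 1 ≤ k := by
    rw [hk]
    exact List.length_pos_iff.2 hl
  have hkR : (1 : ℝ) ≤ k := by exact_mod_cast hk1
  -- the product matrices
  have hAB : ∀ {N : ℕ} {χ : ℂ} {ε : ℝ},
      (∀ s ∈ ls, Bd (fun x : Fin N => wp N ε x) (fun y : Fin N => wq N ε y) (MA0 N s.1) ∧
      Bd (fun y : Fin N => wq' N ε χ.re y) (fun x : Fin N => wp' N ε χ.re x) (MB0 N χ s.2)) →
      ∀ s ∈ ls, Bd (fun x : Fin N => (∑ y : Fin N, wq N ε y * wq' N ε χ.re y) * wp N ε x)
        (fun x : Fin N => wp' N ε χ.re x) (MA0 N s.1 * MB0 N χ s.2) :=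
    fun H s hs => (H s hs).1.mul (H s hs).2
  have hpull : ∀ {N : ℕ} {ε u : ℝ} (c : ℝ),
      ∑ x : Fin N, wp' N ε u x * (c * wp N ε x) = c * ∑ x : Fin N, wp' N ε u x * wp N ε x := by
    intro N ε u c
    rw [mul_sum]
    exact sum_congr rfl fun x _ => by ring
  -- the constant of parts (1) and (3)
  set e : ℝ := bet / (2 * (14 * k + 1)) with he
  have he0 : 0 < e := by positivity
  have he1 : (14 * k + 1) * e = bet / 2 := by
    rw [he]
    field_simp
  obtain ⟨τ, hτ, H⟩ := ent hT R4 ls e he0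
  refine ⟨τ, hτ, ?_, ?_, ?_⟩
  · -- (1)
    filter_upwards [H, ev_N he0, ev_le (K := 2 * k) he0, eventually_gt_atTop 0]
      with N H hN hK hN0
    intro χ hχ1 hχ2
    have hNR : (0 : ℝ) < N := by exact_mod_cast hN0
    have HH := H χ hχ1 hχ2
    have hw := fun (x : Fin N) => wts_bd R1 R2 R3 x.isLt (ε := e) hχ1
    have hG : ∀ A : ℝ, A ≤ N * (2 * bet - c1 * min |χ.re| ρs ^ 2 + 6 * e) →
        A ≤ N * (2 * bet + 6 * e) := by
      intro A hA
      refine hA.trans (mul_le_mul_of_nonneg_left ?_ hNR.le)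
      have : 0 ≤ c1 * min |χ.re| ρs ^ 2 := by positivity
      linarith
    have hww : ∀ x : Fin N, wp' N e χ.re x * wp N e x ≤ Real.exp (N * (2 * bet + 6 * e)) ∧
        wq N e x * wq' N e χ.re x ≤ Real.exp (N * (2 * bet + 6 * e)) := fun x =>
      ⟨(hw x).1.trans (Real.exp_le_exp.2 (hG _ le_rfl)),
        (hw x).2.1.trans (Real.exp_le_exp.2 (hG _ le_rfl))⟩
    set Sx : ℝ := ∑ x : Fin N, wp' N e χ.re x * wp N e x with hSx
    set Sy : ℝ := ∑ y : Fin N, wq N e y * wq' N e χ.re y with hSy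
    have hSx0 : 0 ≤ Sx := sum_nonneg fun x _ =>
      mul_nonneg (wp'_pos x.isLt _ _).le (wp_pos x.isLt _).le
    have hSy0 : 0 ≤ Sy := sum_nonneg fun x _ =>
      mul_nonneg (wq_pos x.isLt _).le (wq'_pos x.isLt _ _).le
    have hSx1 : Sx ≤ Real.exp (N * (2 * bet + 7 * e)) := sum_le_exp hN fun x => (hww x).1
    have hSy1 : Sy ≤ Real.exp (N * (2 * bet + 7 * e)) := sum_le_exp hN fun x => (hww x).2
    -- the masks
    set Tx : ℝ := ∑ x : Fin N, (if N - 1 - (N - 1) / 2 ≤ (x : ℕ) then (0 : ℝ) else 1) *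
      (wp' N e χ.re x * wp N e x) with hTx
    set Ty : ℝ := ∑ y : Fin N, (if (y : ℕ) ≤ (N - 1) / 2 then (0 : ℝ) else 1) *
      (wq N e y * wq' N e χ.re y) with hTy
    have hTx1 : Tx ≤ Real.exp (N * (bet + 7 * e)) := sum_le_exp hN fun x =>
      mask_le' (Real.exp_pos _).le fun hc => (hw x).2.2.1 (by omega)
    have hTy1 : Ty ≤ Real.exp (N * (bet + 7 * e)) := sum_le_exp hN fun y =>
      mask_le' (Real.exp_pos _).le fun hc => (hw y).2.2.2 (by omega)
    have hTy0 : 0 ≤ Ty := sum_nonneg fun x _ => by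
      have := mul_nonneg (wq_pos x.isLt e).le (wq'_pos x.isLt e χ.re).le
      split_ifs
      · rw [zero_mul]
      · rw [one_mul]
        exact this
    have hTx0 : 0 ≤ Tx := sum_nonneg fun x _ => by
      have := mul_nonneg (wp'_pos x.isLt e χ.re).le (wp_pos x.isLt e).le
      split_ifs
      · rw [zero_mul]
      · rw [one_mul]
        exact this
    set Px : Matrix (Fin N) (Fin N) ℂ := Matrix.diagonal
      (fun i : Fin N => if N - 1 - (N - 1) / 2 ≤ (i : ℕ) then (1 : ℂ) else 0) with hPx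
    set Px' : Matrix (Fin N) (Fin N) ℂ := Matrix.diagonal
      (fun i : Fin N => if N - 1 - (N - 1) / 2 ≤ (i : ℕ) then (0 : ℂ) else 1) with hPx'
    set Py : Matrix (Fin N) (Fin N) ℂ := Matrix.diagonal
      (fun i : Fin N => if (i : ℕ) ≤ (N - 1) / 2 then (1 : ℂ) else 0) with hPy
    set Py' : Matrix (Fin N) (Fin N) ℂ := Matrix.diagonal
      (fun i : Fin N => if (i : ℕ) ≤ (N - 1) / 2 then (0 : ℂ) else 1) with hPy'
    have hx1 : Px + Px' = 1 := diag_compl _
    have hy1 : Py + Py' = 1 := diag_compl _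
    have hE : ∀ s : ℤ × ℤ, MA0 N s.1 * MB0 N χ s.2 - Px * MA0 N s.1 * Py * MB0 N χ s.2 =
        Px' * (MA0 N s.1 * MB0 N χ s.2) + Px * (MA0 N s.1 * (Py' * MB0 N χ s.2)) := by
      intro s
      have h1 : Px' = 1 - Px := by rw [← hx1]; abel
      have h2 : Py' = 1 - Py := by rw [← hy1]; abel
      rw [h1, h2]
      noncomm_ring
    have h1 := hAB HH
    have h2 : ∀ s ∈ ls, Bd (fun x : Fin N => Sy * wp N e x) (fun x : Fin N => wp' N e χ.re x)
        (Px * MA0 N s.1 * Py * MB0 N χ s.2) := by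
      intro s hs
      have h3 := ((H χ hχ1 hχ2 s hs).2.diag_left
        (d := fun i : Fin N => if (i : ℕ) ≤ (N - 1) / 2 then (1 : ℂ) else 0)
        (δ := fun _ => 1) (fun i => norm_mask1))
      have h4 := ((H χ hχ1 hχ2 s hs).1.mul h3).diag_left
        (d := fun i : Fin N => if N - 1 - (N - 1) / 2 ≤ (i : ℕ) then (1 : ℂ) else 0)
        (δ := fun _ => 1) (fun i => norm_mask1)
      rw [mul_assoc, mul_assoc]
      refine h4.mono fun i j => le_of_eq ?_
      simp only [one_mul, hSy]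
    have h3 : ∀ s ∈ ls, Bd (fun x : Fin N => (if N - 1 - (N - 1) / 2 ≤ (x : ℕ) then (0 : ℝ) else 1) *
        (Sy * wp N e x) + Ty * wp N e x) (fun x : Fin N => wp' N e χ.re x)
        (MA0 N s.1 * MB0 N χ s.2 - Px * MA0 N s.1 * Py * MB0 N χ s.2) := by
      intro s hs
      rw [hE]
      refine Bd.add ?_ ?_
      · exact (h1 s hs).diag_left (fun i => norm_mask')
      · have h3 := ((H χ hχ1 hχ2 s hs).2.diag_left
          (d := fun i : Fin N => if (i : ℕ) ≤ (N - 1) / 2 then (0 : ℂ) else 1)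
          (δ := fun i : Fin N => if (i : ℕ) ≤ (N - 1) / 2 then (0 : ℝ) else 1)
          (fun i => norm_mask'))
        have h4 := ((H χ hχ1 hχ2 s hs).1.mul h3).diag_left
          (d := fun i : Fin N => if N - 1 - (N - 1) / 2 ≤ (i : ℕ) then (1 : ℂ) else 0)
          (δ := fun _ => 1) (fun i => norm_mask1)
        refine h4.mono fun i j => le_of_eq ?_
        rw [one_mul]
        congr 2
        rw [hTy]
        exact sum_congr rfl fun y _ => by ring
    have h4 := tr_diff hl h1 h2 h3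
    have e1 : (∑ x : Fin N, wp' N e χ.re x *
        ((if N - 1 - (N - 1) / 2 ≤ (x : ℕ) then (0 : ℝ) else 1) *
        (Sy * wp N e x) + Ty * wp N e x)) = Sy * Tx + Ty * Sx := by
      rw [hTx, hSx, mul_sum, mul_sum, ← sum_add_distrib]
      exact sum_congr rfl fun x _ => by ring
    rw [e1, hpull, ← hk] at h4
    refine le_trans h4 ?_
    have hSS : Sy * Sx ≤ Real.exp (N * (2 * bet + 7 * e)) ^ 2 := by
      rw [sq]
      exact mul_le_mul hSy1 hSx1 hSx0 (Real.exp_pos _).le
    have hST : Sy * Tx + Ty * Sx ≤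
        2 * (Real.exp (N * (bet + 7 * e)) * Real.exp (N * (2 * bet + 7 * e))) := by
      have a1 : Sy * Tx ≤ Real.exp (N * (2 * bet + 7 * e)) * Real.exp (N * (bet + 7 * e)) :=
        mul_le_mul hSy1 hTx1 hTx0 (Real.exp_pos _).le
      have a2 : Ty * Sx ≤ Real.exp (N * (bet + 7 * e)) * Real.exp (N * (2 * bet + 7 * e)) :=
        mul_le_mul hTy1 hSx1 hSx0 (Real.exp_pos _).le
      linarith
    calc (k : ℝ) * (Sy * Tx + Ty * Sx) * (Sy * Sx) ^ (k - 1) ≤
        k * (2 * (Real.exp (N * (bet + 7 * e)) * Real.exp (N * (2 * bet + 7 * e)))) *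
          (Real.exp (N * (2 * bet + 7 * e)) ^ 2) ^ (k - 1) := by
          have : 0 ≤ Sy * Sx := mul_nonneg hSy0 hSx0
          gcongr
      _ = (2 * k) * (Real.exp (N * (bet + 7 * e)) * Real.exp (N * (2 * bet + 7 * e)) *
          (Real.exp (N * (2 * bet + 7 * e)) ^ 2) ^ (k - 1)) := by ring
      _ ≤ Real.exp (N * e) * (Real.exp (N * (bet + 7 * e)) * Real.exp (N * (2 * bet + 7 * e)) *
          (Real.exp (N * (2 * bet + 7 * e)) ^ 2) ^ (k - 1)) := by gcongr
      _ = Real.exp (N * ((4 * k - 1 / 2) * bet)) := by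
          rw [← pow_mul, ← Real.exp_nat_mul, ← Real.exp_add, ← Real.exp_add, ← Real.exp_add]
          congr 1
          push_cast [Nat.cast_sub hk1]
          linear_combination (N : ℝ) * he1
  · -- (2)
    intro ε hε
    set f : ℝ := ε / (14 * k) with hf
    have hf0 : 0 < f := by positivity
    have hf1 : 14 * k * f = ε := by
      rw [hf]
      field_simp
    obtain ⟨τ', hτ', H'⟩ := ent hT R4 ls f hf0
    refine ⟨τ', hτ', ?_⟩
    filter_upwards [H', ev_N hf0, eventually_gt_atTop 0] with N H hN hN0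
    intro χ hχ1 hχ2
    have HH := H χ hχ1 hχ2
    have hw := fun (x : Fin N) => wts_bd R1 R2 R3 x.isLt (ε := f) hχ1
    have h1 := tr_bd hl (hAB HH)
    rw [hpull, ← hk] at h1
    set Sx : ℝ := ∑ x : Fin N, wp' N f χ.re x * wp N f x with hSx
    set Sy : ℝ := ∑ y : Fin N, wq N f y * wq' N f χ.re y with hSy
    have hSx0 : 0 ≤ Sx := sum_nonneg fun x _ =>
      mul_nonneg (wp'_pos x.isLt _ _).le (wp_pos x.isLt _).le
    have hSy0 : 0 ≤ Sy := sum_nonneg fun x _ =>
      mul_nonneg (wq_pos x.isLt _).le (wq'_pos x.isLt _ _).le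
    have hSx1 : Sx ≤ Real.exp (N * (2 * bet - c1 * min |χ.re| ρs ^ 2 + 7 * f)) :=
      sum_le_exp hN fun x => (hw x).1
    have hSy1 : Sy ≤ Real.exp (N * (2 * bet - c1 * min |χ.re| ρs ^ 2 + 7 * f)) :=
      sum_le_exp hN fun x => (hw x).2.1
    refine h1.trans ?_
    calc (Sy * Sx) ^ k ≤ (Real.exp (N * (2 * bet - c1 * min |χ.re| ρs ^ 2 + 7 * f)) *
          Real.exp (N * (2 * bet - c1 * min |χ.re| ρs ^ 2 + 7 * f))) ^ k := by
          gcongr
      _ = Real.exp (N * (4 * k * bet - 2 * k * c1 * min |χ.re| ρs ^ 2 + ε)) := by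
          rw [← Real.exp_add, ← Real.exp_nat_mul]
          congr 1
          linear_combination (N : ℝ) * hf1
  · -- (3)
    filter_upwards [H, ev_N he0, eventually_gt_atTop 0] with N H hN hN0
    intro p hp
    have hNR : (0 : ℝ) < N := by exact_mod_cast hN0
    have hNC : (N : ℂ) ≠ 0 := by exact_mod_cast hN0.ne'
    -- the final estimate
    have hfin : ∀ S : ℝ, 0 ≤ S → S ≤ Real.exp (N * (bet + 7 * e)) * Real.exp (N * (2 * bet + 7 * e)) →
        S ^ k ≤ Real.exp (N * ((4 * k - 1 / 2) * bet)) := by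
      intro S hS0 hS
      calc S ^ k ≤ (Real.exp (N * (bet + 7 * e)) * Real.exp (N * (2 * bet + 7 * e))) ^ k := by
            gcongr
        _ = Real.exp (k * (N * (bet + 7 * e) + N * (2 * bet + 7 * e))) := by
            rw [← Real.exp_add, ← Real.exp_nat_mul]
        _ ≤ _ := by
            refine Real.exp_le_exp.2 ?_
            have h1 : k * (N * (bet + 7 * e) + N * (2 * bet + 7 * e)) =
                N * (3 * k * bet + 14 * k * e) := by ring
            rw [h1]
            refine mul_le_mul_of_nonneg_left ?_ hNR.le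
            nlinarith
    have hmain : ∀ u : ℝ, |u| ≤ π →
        (∀ x : Fin N, wp' N e u x * wp N e x ≤ Real.exp (N * (2 * bet + 6 * e)) ∧
          wq N e x * wq' N e u x ≤ Real.exp (N * (2 * bet + 6 * e)) ∧
          (2 * (x : ℕ) < N → wp' N e u x * wp N e x ≤ Real.exp (N * (bet + 6 * e))) ∧
          (N ≤ 2 * (x : ℕ) → wq N e x * wq' N e u x ≤ Real.exp (N * (bet + 6 * e)))) := by
      intro u hu x
      have hw := wts_bd R1 R2 R3 x.isLt (ε := e) hu
      have hG : N * (2 * bet - c1 * min |u| ρs ^ 2 + 6 * e) ≤ N * (2 * bet + 6 * e) := by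
        refine mul_le_mul_of_nonneg_left ?_ hNR.le
        have : 0 ≤ c1 * min |u| ρs ^ 2 := by positivity
        linarith
      exact ⟨hw.1.trans (Real.exp_le_exp.2 hG), hw.2.1.trans (Real.exp_le_exp.2 hG), hw.2.2.1,
        hw.2.2.2⟩
    constructor
    · -- (3a)
      intro h2p
      set u : ℝ := 2 * π * p / N with hu
      have hu0 : 0 ≤ u := by positivity
      have hu1 : |u| ≤ π := by
        rw [abs_of_nonneg hu0, hu, div_le_iff₀ hNR]
        have : (2 : ℝ) * p ≤ N := by exact_mod_cast h2p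
        nlinarith
      have hχ : (2 * π * p / N : ℂ) = ((u : ℝ) : ℂ) := by
        rw [hu]
        push_cast
        rfl
      have HH := H ((u : ℝ) : ℂ) (by rwa [Complex.ofReal_re]) (by
        rw [Complex.ofReal_im, abs_zero]; exact hτ.le)
      rw [Complex.ofReal_re] at HH
      have hm := hmain u hu1
      set Sx : ℝ := ∑ x : Fin N, wp' N e u x * wp N e x with hSx
      set Ty : ℝ := ∑ y : Fin N, (if N ≤ (y : ℕ) + p then (1 : ℝ) else 0) *
        (wq N e y * wq' N e u y) with hTy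
      have hSx0 : 0 ≤ Sx := sum_nonneg fun x _ =>
        mul_nonneg (wp'_pos x.isLt _ _).le (wp_pos x.isLt _).le
      have hTy0 : 0 ≤ Ty := sum_nonneg fun x _ => by
        have := mul_nonneg (wq_pos x.isLt e).le (wq'_pos x.isLt e u).le
        split_ifs
        · rw [one_mul]
          exact this
        · rw [zero_mul]
      have hSx1 : Sx ≤ Real.exp (N * (2 * bet + 7 * e)) := sum_le_exp hN fun x => (hm x).1
      have hTy1 : Ty ≤ Real.exp (N * (bet + 7 * e)) := sum_le_exp hN fun y =>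
        mask_le (Real.exp_pos _).le fun hc => (hm y).2.2.2 (by omega)
      have h1 : ∀ s ∈ ls, Bd (fun x : Fin N => Ty * wp N e x)
          (fun x : Fin N => wp' N e u x * 1)
          (MA0 N s.1 * pH N p * MB0 N ((u : ℝ) : ℂ) s.2 * pH N p) := by
        intro s hs
        have h3 := ((HH s hs).2.diag_right (d := fun i : Fin N => if N ≤ i + p then (1 : ℂ) else 0)
          (δ := fun _ => 1) (fun i => norm_mask1)).diag_left
          (d := fun i : Fin N => if N ≤ i + p then (1 : ℂ) else 0)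
          (δ := fun i : Fin N => if N ≤ (i : ℕ) + p then (1 : ℝ) else 0) (fun i => norm_mask)
        have h4 := (HH s hs).1.mul h3
        rw [mul_assoc, mul_assoc]
        refine h4.mono fun i j => le_of_eq ?_
        congr 2
        rw [hTy]
        exact sum_congr rfl fun y _ => by ring
      have h2 := tr_bd' hl h1 (d := fun i : Fin N => if N ≤ i + p then (1 : ℂ) else 0)
        (e := fun _ => 1) (fun i => norm_mask1) (fun i => by simp)
      rw [Matrix.diagonal_one, mul_one] at h2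
      have e2 : Thi N ls p = (Matrix.diagonal (fun i : Fin N => if N ≤ i + p then (1 : ℂ) else 0) *
        (ls.map fun s => MA0 N s.1 * pH N p * MB0 N ((u : ℝ) : ℂ) s.2 * pH N p).prod).trace := by
        unfold Thi
        rw [hχ]
        rfl
      rw [e2]
      refine h2.trans ?_
      have e3 : ∑ x : Fin N, wp' N e u x * 1 * (Ty * wp N e x) = Ty * Sx := by
        rw [hSx, mul_sum]
        exact sum_congr rfl fun x _ => by ring
      rw [e3, ← hk]
      exact hfin _ (mul_nonneg hTy0 hSx0) (mul_le_mul hTy1 hSx1 hSx0 (Real.exp_pos _).le)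
    · -- (3b)
      intro h2p
      set u : ℝ := 2 * π * p / N - 2 * π with hu
      have hp1 : (p : ℝ) ≤ N := by exact_mod_cast hp.le
      have hp2 : (N : ℝ) ≤ 2 * p := by exact_mod_cast h2p
      have hu1 : |u| ≤ π := by
        have h1 : 2 * π * p / N ≤ 2 * π := by
          rw [div_le_iff₀ hNR]
          exact mul_le_mul_of_nonneg_left hp1 (by positivity)
        have h2 : π ≤ 2 * π * p / N := by
          rw [le_div_iff₀ hNR]
          nlinarith
        rw [abs_le]
        constructor <;> linarith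
      have hcos : Complex.cos (2 * π * p / N : ℂ) = Complex.cos ((u : ℝ) : ℂ) := by
        have : (2 * π * p / N : ℂ) = ((u : ℝ) : ℂ) + 2 * π := by
          rw [hu]
          push_cast
          ring
        rw [this, Complex.cos_add_two_pi]
      have hMB : ∀ b : ℤ, MB0 N (2 * π * p / N : ℂ) b = MB0 N ((u : ℝ) : ℂ) b :=
        fun b => MB0_congr hcos b
      have HH := H ((u : ℝ) : ℂ) (by rwa [Complex.ofReal_re]) (by
        rw [Complex.ofReal_im, abs_zero]; exact hτ.le)
      have hAB' := hAB HH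
      rw [Complex.ofReal_re] at HH hAB'
      have hm := hmain u hu1
      set Sy : ℝ := ∑ y : Fin N, wq N e y * wq' N e u y with hSy
      set Tx : ℝ := ∑ x : Fin N, (if N ≤ (x : ℕ) + p then (0 : ℝ) else 1) *
        (wp' N e u x * wp N e x) with hTx
      have hSy0 : 0 ≤ Sy := sum_nonneg fun x _ =>
        mul_nonneg (wq_pos x.isLt _).le (wq'_pos x.isLt _ _).le
      have hTx0 : 0 ≤ Tx := sum_nonneg fun x _ => by
        have := mul_nonneg (wp'_pos x.isLt e u).le (wp_pos x.isLt e).le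
        split_ifs
        · rw [zero_mul]
        · rw [one_mul]
          exact this
      have hSy1 : Sy ≤ Real.exp (N * (2 * bet + 7 * e)) := sum_le_exp hN fun x => (hm x).2.1
      have hTx1 : Tx ≤ Real.exp (N * (bet + 7 * e)) := sum_le_exp hN fun x =>
        mask_le' (Real.exp_pos _).le fun hc => (hm x).2.2.1 (by omega)
      -- the blocks
      set L : Matrix (Fin N) (Fin N) ℂ := Matrix.diagonal
        (fun i : Fin N => if N ≤ i + p then (0 : ℂ) else 1) with hL
      have hHL : pH N p + L = 1 := diag_compl _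
      have hLH : L * pH N p = 0 := by
        rw [hL, pH, Matrix.diagonal_mul_diagonal, ← Matrix.diagonal_zero]
        congr 1
        funext i
        split_ifs <;> simp
      have hHH : pH N p * pH N p = pH N p := by
        rw [pH, Matrix.diagonal_mul_diagonal]
        congr 1
        funext i
        split_ifs <;> simp
      have hLL : L * L = L := by
        rw [hL, Matrix.diagonal_mul_diagonal]
        congr 1
        funext i
        split_ifs <;> simp
      have hLA : ∀ a : ℤ, L * MA0 N a * pH N p = 0 := by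
        intro a
        ext x y
        rw [hL, pH, Matrix.mul_diagonal, Matrix.diagonal_mul, Matrix.zero_apply]
        by_cases h1 : N ≤ (x : ℕ) + p
        · rw [if_pos h1]
          ring
        by_cases h2 : N ≤ (y : ℕ) + p
        · have h3 : MA0 N a x y = 0 := by
            unfold MA0
            rw [if_neg]
            rw [Fin.le_def]
            omega
          rw [h3]
          ring
        · rw [if_neg h2]
          ring
      have hPh : Ph N (2 * π * p / N : ℂ) (N - p) = 0 := by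
        unfold Ph
        have e1 : Real.cos (2 * π * ((N - p : ℕ) : ℝ) / N) = Real.cos (2 * π * p / N) :=
          cos_symm hN0 hp.le
        rw [e1]
        have e2 : Complex.cos (2 * π * p / N : ℂ) = ((Real.cos (2 * π * p / N) : ℝ) : ℂ) := by
          push_cast
          rfl
        rw [e2, sub_self, mul_zero]
      have hLB : ∀ b : ℤ, L * MB0 N (2 * π * p / N : ℂ) b * pH N p = 0 := by
        intro b
        ext y x
        rw [hL, pH, Matrix.mul_diagonal, Matrix.diagonal_mul, Matrix.zero_apply]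
        by_cases h1 : N ≤ (y : ℕ) + p
        · rw [if_pos h1]
          ring
        by_cases h2 : N ≤ (x : ℕ) + p
        · have h3 : MB0 N (2 * π * p / N : ℂ) b y x = 0 := by
            unfold MB0
            split_ifs with h4
            · rw [prod_eq_zero (i := N - p) (by rw [mem_Ioc]; omega) hPh, zero_mul]
            · rfl
          rw [h3]
          ring
        · rw [if_neg h2]
          ring
      have hR0 : ∀ s : ℤ × ℤ, L * (MA0 N s.1 * MB0 N (2 * π * p / N : ℂ) s.2) * pH N p = 0 := by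
        intro s
        calc L * (MA0 N s.1 * MB0 N (2 * π * p / N : ℂ) s.2) * pH N p =
            L * (MA0 N s.1 * (pH N p + L) * MB0 N (2 * π * p / N : ℂ) s.2) * pH N p := by
              rw [hHL, mul_one]
          _ = (L * MA0 N s.1 * pH N p) * MB0 N (2 * π * p / N : ℂ) s.2 * pH N p +
              L * MA0 N s.1 * (L * MB0 N (2 * π * p / N : ℂ) s.2 * pH N p) := by noncomm_ring
          _ = 0 := by rw [hLA, hLB]; simp
      have hHR : ∀ s : ℤ × ℤ, pH N p * (MA0 N s.1 * MB0 N (2 * π * p / N : ℂ) s.2) * pH N p =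
          pH N p * (MA0 N s.1 * pH N p * MB0 N (2 * π * p / N : ℂ) s.2) * pH N p := by
        intro s
        calc pH N p * (MA0 N s.1 * MB0 N (2 * π * p / N : ℂ) s.2) * pH N p =
            pH N p * (MA0 N s.1 * (pH N p + L) * MB0 N (2 * π * p / N : ℂ) s.2) * pH N p := by
              rw [hHL, mul_one]
          _ = pH N p * (MA0 N s.1 * pH N p * MB0 N (2 * π * p / N : ℂ) s.2) * pH N p +
              pH N p * MA0 N s.1 * (L * MB0 N (2 * π * p / N : ℂ) s.2 * pH N p) := by noncomm_ring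
          _ = _ := by rw [hLB]; simp
      have h1 := tr_blk hHL hLH hHH hLL
        (fun s : ℤ × ℤ => MA0 N s.1 * MB0 N (2 * π * p / N : ℂ) s.2) hR0 ls
      simp only [hHR] at h1
      rw [Matrix.trace_mul_comm, ← mul_assoc, hHH, lstH hHH] at h1
      have e1 : Tf N ls (2 * π * p / N : ℂ) - Thi N ls p =
          (L * (ls.map fun s : ℤ × ℤ =>
            L * (MA0 N s.1 * MB0 N (2 * π * p / N : ℂ) s.2) * L).prod * L).trace := by
        unfold Tf Thi
        rw [h1]
        ring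
      rw [e1]
      have h2 : ∀ s ∈ ls, Bd (fun x : Fin N => (if N ≤ (x : ℕ) + p then (0 : ℝ) else 1) *
          (Sy * wp N e x)) (fun x : Fin N => wp' N e u x * 1)
          (L * (MA0 N s.1 * MB0 N (2 * π * p / N : ℂ) s.2) * L) := by
        intro s hs
        rw [hMB]
        exact ((hAB' s hs).diag_left (fun i => norm_mask')).diag_right (fun i => norm_mask1')
      have h3 := tr_bd' hl h2 (d := fun i : Fin N => if N ≤ i + p then (0 : ℂ) else 1)
        (e := fun i : Fin N => if N ≤ i + p then (0 : ℂ) else 1) (fun i => norm_mask1')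
        (fun i => norm_mask1')
      refine h3.trans ?_
      have e3 : ∑ x : Fin N, wp' N e u x * 1 *
          ((if N ≤ (x : ℕ) + p then (0 : ℝ) else 1) * (Sy * wp N e x)) = Tx * Sy := by
        rw [hTx, sum_mul]
        exact sum_congr rfl fun x _ => by ring
      rw [e3, ← hk]
      exact hfin _ (mul_nonneg hTx0 hSy0) (mul_le_mul hTx1 hSy1 hSy0 (Real.exp_pos _).le)

/-- FARX -/
theorem farx : S_FARX := by
  intro hT hR ls hl
  obtain ⟨ρs, hρ0, hρ1, h⟩ := farx2 hT hR
  obtain ⟨τ, hτ, h⟩ := h ls hl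
  exact ⟨τ, hτ, ρs, hρ0, hρ1, h⟩

end Pool.Agent.Y590.CB
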