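import Pool.Agent.Y472.B.Defs
import Pool.Agent.W346.HT.Asm

/-!
# CB3-KF, part 1: the products `∏ Ph N χ t`
-/

set_option autoImplicit false

namespace Pool.Agent.Y590.CB

open Finset
open Pool.Agent.W711.HT Pool.Agent.Y472
open Pool.Agent.W346.HT (Sd_pos Sd_mul Sd_full)
open scoped Real

/-- `2 cos χ - 2 cos φ_t` -/
noncomputable def pc (N : ℕ) (χ : ℂ) (t : ℕ) : ℂ := 2 * Complex.cos χ - 2 * Real.cos (2 * π * t / N)

/-- `2 - 2 cos φ_t` -/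
noncomputable def qc (N t : ℕ) : ℝ := 2 - 2 * Real.cos (2 * π * t / N)

theorem Ph_eq (N : ℕ) (χ : ℂ) (t : ℕ) : Ph N χ t = (qc N t : ℂ) * pc N χ t := by
  unfold Ph qc pc
  push_cast
  ring

theorem qc_sq (N t : ℕ) : qc N t = (2 * Real.sin (π * t / N)) ^ 2 := by
  unfold qc
  have : 2 * π * t / N = 2 * (π * t / N) := by ring
  rw [this, Real.cos_two_mul]
  have := Real.sin_sq_add_cos_sq (π * t / N)
  nlinarith

theorem Sd_succ (N d : ℕ) : Sd N (d + 1) = Sd N d * (2 * Real.sin (π * ((d + 1 : ℕ) : ℝ) / N)) := by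
  unfold Sd
  rw [prod_range_succ]
  push_cast
  ring

/-- `S_d^2 ∏_{d < t ≤ m} (2 - 2 cos φ_t) = S_m^2` -/
theorem Sd_qc (N : ℕ) {d m : ℕ} (h : d ≤ m) :
    Sd N d ^ 2 * ∏ t ∈ Ioc d m, qc N t = Sd N m ^ 2 := by
  induction m, h using Nat.le_induction with
  | base => simp
  | succ m hm ih =>
    rw [← Finset.insert_Ioc_right_eq_Ioc_add_one hm, prod_insert (by simp), mul_left_comm, ih, qc_sq,
      Sd_succ]
    ring

theorem cos_symm {N t : ℕ} (hN : 0 < N) (ht : t ≤ N) :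
    Real.cos (2 * π * ((N - t : ℕ) : ℝ) / N) = Real.cos (2 * π * t / N) := by
  have hN0 : (N : ℝ) ≠ 0 := by exact_mod_cast hN.ne'
  have : 2 * π * ((N - t : ℕ) : ℝ) / N = 2 * π - 2 * π * t / N := by
    rw [Nat.cast_sub ht]
    field_simp
  rw [this, Real.cos_two_pi_sub]

theorem pc_symm {N t : ℕ} (χ : ℂ) (hN : 0 < N) (ht : t ≤ N) : pc N χ (N - t) = pc N χ t := by
  unfold pc
  rw [cos_symm hN ht]

theorem qc_symm {N t : ℕ} (hN : 0 < N) (ht : t ≤ N) : qc N (N - t) = qc N t := by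
  unfold qc
  rw [cos_symm hN ht]

/-- reflection -/
theorem refl_prod {M : Type*} [CommMonoid M] {N d n : ℕ} (hd : d ≤ n) (hn : n < N) (F : ℕ → M)
    (hF : ∀ t ≤ N, F (N - t) = F t) :
    ∏ t ∈ Ioc (N - 1 - n) (N - 1 - d), F t = ∏ t ∈ Ioc d n, F t := by
  refine prod_bij' (fun t _ => N - t) (fun t _ => N - t) ?_ ?_ ?_ ?_ ?_
  · intro t ht
    rw [mem_Ioc] at ht ⊢
    omega
  · intro t ht
    rw [mem_Ioc] at ht ⊢
    omega
  · intro t ht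
    rw [mem_Ioc] at ht
    show N - (N - t) = t
    omega
  · intro t ht
    rw [mem_Ioc] at ht
    show N - (N - t) = t
    omega
  · intro t ht
    rw [mem_Ioc] at ht
    exact (hF t (by omega)).symm

theorem split_prod {M : Type*} [CommMonoid M] {N d y n : ℕ} (hy : y ≤ n) (hd : d ≤ n)
    (hn : 2 * n + 1 ≤ N) (F : ℕ → M) (hF : ∀ t ≤ N, F (N - t) = F t) :
    ∏ t ∈ Ioc y (N - 1 - d), F t =
      (∏ t ∈ Ioc y n, F t) * (∏ t ∈ Ioc n (N - 1 - n), F t) * ∏ t ∈ Ioc d n, F t := by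
  rw [← refl_prod hd (by omega) F hF, mul_assoc, Finset.prod_Ioc_consecutive _ (by omega) (by omega),
    Finset.prod_Ioc_consecutive _ hy (by omega)]

/-- the product of `2 - 2 cos φ_t` in the middle -/
theorem mid_q {N : ℕ} (hN : 2 ≤ N) :
    Sd N ((N - 1) / 2) ^ 4 * ∏ t ∈ Ioc ((N - 1) / 2) (N - 1 - (N - 1) / 2), qc N t = (N : ℝ) ^ 2 := by
  set n := (N - 1) / 2 with hn
  have h1 := Sd_qc N (d := n) (m := N - 1 - n) (by omega)
  have h2 := Sd_mul (N := N) (n := n) (by omega)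
  calc Sd N n ^ 4 * ∏ t ∈ Ioc n (N - 1 - n), qc N t =
      Sd N n ^ 2 * (Sd N n ^ 2 * ∏ t ∈ Ioc n (N - 1 - n), qc N t) := by ring
    _ = (Sd N n * Sd N (N - 1 - n)) ^ 2 := by rw [h1]; ring
    _ = (N : ℝ) ^ 2 := by rw [h2]

/-- the product of `2 cos χ - 2 cos φ_t` in the middle -/
theorem mid_p {N : ℕ} (hN : 2 ≤ N) (χ : ℂ) :
    ∏ t ∈ Ioc ((N - 1) / 2) (N - 1 - (N - 1) / 2), pc N χ t =
      (if N % 2 = 0 then 2 * Complex.cos (χ / 2) else 1) ^ 2 := by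
  split_ifs with h
  · have e : N - 1 - (N - 1) / 2 = (N - 1) / 2 + 1 := by omega
    rw [e, ← Finset.insert_Ioc_right_eq_Ioc_add_one le_rfl, Ioc_self, insert_empty_eq, prod_singleton]
    unfold pc
    have e2 : (N : ℝ) = 2 * (((N - 1) / 2 + 1 : ℕ) : ℝ) := by
      have : N = 2 * ((N - 1) / 2 + 1) := by omega
      exact_mod_cast this
    have e3 : 2 * π * (((N - 1) / 2 + 1 : ℕ) : ℝ) / N = π := by
      rw [e2]
      have : (((N - 1) / 2 + 1 : ℕ) : ℝ) ≠ 0 := by positivity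
      field_simp
    rw [e3, Real.cos_pi]
    have e4 : Complex.cos χ = 2 * Complex.cos (χ / 2) ^ 2 - 1 := by
      rw [← Complex.cos_two_mul]
      congr 1
      ring
    rw [e4]
    push_cast
    ring
  · have e : N - 1 - (N - 1) / 2 = (N - 1) / 2 := by omega
    rw [e, Ioc_self, prod_empty]
    ring

/-- (a) -/
theorem prod_Ph {N y d : ℕ} (hN : 2 ≤ N) (χ : ℂ) (hy : y ≤ (N - 1) / 2) (hd : d ≤ (N - 1) / 2) :
    ∏ t ∈ Ioc y (N - 1 - d), Ph N χ t =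
      (N : ℂ) ^ 2 * (Tg N y χ / (Sd N y : ℂ) ^ 2) * (Tg N d χ / (Sd N d : ℂ) ^ 2) := by
  set n := (N - 1) / 2 with hn
  have h0 : ∀ {k : ℕ}, k ≤ n → (Sd N k : ℂ) ≠ 0 := by
    intro k hk
    exact_mod_cast (Sd_pos (show k < N by omega)).ne'
  simp only [Ph_eq, prod_mul_distrib]
  rw [split_prod (n := n) hy hd (by omega) (fun t => ((qc N t : ℝ) : ℂ))
    (fun t ht => by simp only [qc_symm (show 0 < N by omega) ht]),
    split_prod (n := n) hy hd (by omega) (pc N χ) (fun t ht => pc_symm χ (by omega) ht), mid_p hN χ]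
  have hq1 := Sd_qc N hy
  have hq2 := Sd_qc N hd
  have hq3 := mid_q hN
  rw [← hn] at hq3
  have c1 : (Sd N y : ℂ) ^ 2 * ∏ t ∈ Ioc y n, ((qc N t : ℝ) : ℂ) = (Sd N n : ℂ) ^ 2 := by
    exact_mod_cast hq1
  have c2 : (Sd N d : ℂ) ^ 2 * ∏ t ∈ Ioc d n, ((qc N t : ℝ) : ℂ) = (Sd N n : ℂ) ^ 2 := by
    exact_mod_cast hq2
  have c3 : (Sd N n : ℂ) ^ 4 * ∏ t ∈ Ioc n (N - 1 - n), ((qc N t : ℝ) : ℂ) = (N : ℂ) ^ 2 := by
    exact_mod_cast hq3
  have t1 : Tg N y χ = (if N % 2 = 0 then 2 * Complex.cos (χ / 2) else 1) *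
    ∏ t ∈ Ioc y n, pc N χ t := rfl
  have t2 : Tg N d χ = (if N % 2 = 0 then 2 * Complex.cos (χ / 2) else 1) *
    ∏ t ∈ Ioc d n, pc N χ t := rfl
  rw [t1, t2, ← c3]
  set P1 := ∏ t ∈ Ioc y n, pc N χ t
  set P2 := ∏ t ∈ Ioc d n, pc N χ t
  set E := (if N % 2 = 0 then 2 * Complex.cos (χ / 2) else 1)
  set Q1 := ∏ t ∈ Ioc y n, ((qc N t : ℝ) : ℂ)
  set Q2 := ∏ t ∈ Ioc d n, ((qc N t : ℝ) : ℂ)
  set Q3 := ∏ t ∈ Ioc n (N - 1 - n), ((qc N t : ℝ) : ℂ)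
  have e1 : Q1 = (Sd N n : ℂ) ^ 2 / (Sd N y : ℂ) ^ 2 := by
    rw [eq_div_iff (pow_ne_zero _ (h0 hy)), ← c1]
    ring
  have e2 : Q2 = (Sd N n : ℂ) ^ 2 / (Sd N d : ℂ) ^ 2 := by
    rw [eq_div_iff (pow_ne_zero _ (h0 hd)), ← c2]
    ring
  rw [e1, e2]
  have := h0 hy
  have := h0 hd
  field_simp

end Pool.Agent.Y590.CB
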